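import Pool.Agent.Lib.MP_4785e6_an.Seq

/-!
# Bounded orbits for `c ≥ -(1-b)^2`
-/

set_option autoImplicit false

namespace Pool.Agent.Lib.MP_4785e6_an.Conv

open Filter Topology Pool.Agent.Lib.MP_4785e6_an.Seq

/-- the case `0 ≤ c` -/
theorem two_of_c_nonneg {b c M : ℝ} {x : ℕ → ℝ} (h : IsOrb b c x) (hb : 0 ≤ b) (hb1 : b < 1)
    (hc : 0 ≤ c) (hM : ∀ n, |x n| ≤ M) : Two x := by
  have step : ∀ n, b * x n ≤ x (n + 2) := fun n => by
    have := h n
    have := sq_nonneg (x (n + 1))
    linarith
  have keep : ∀ n, 0 ≤ x n → ∀ k, 0 ≤ x (n + 2 * k) := by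
    intro n hn k
    induction k with
    | zero => exact hn
    | succ k ih =>
      have h1 := step (n + 2 * k)
      have h2 := mul_nonneg hb ih
      rw [show n + 2 * (k + 1) = n + 2 * k + 2 by ring]
      linarith
  -- a class that is always negative
  have negc : ∀ n, (∀ k, x (n + 2 * k) < 0) → Two x := by
    intro n hn
    obtain ⟨p, hp⟩ := conv_of_sign (y := fun k => x (n + 2 * k)) (M := M) (fun k => hM _)
      (Or.inl fun k => by
        have h1 := step (n + 2 * k)
        have h2 := hn k
        rw [show n + 2 * (k + 1) = n + 2 * k + 2 by ring]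
        nlinarith)
    have hinc : ∀ k, x (n + 2 * k) ≤ x (n + 2 * (k + 1)) := fun k => by
      have h1 := step (n + 2 * k)
      have h2 := hn k
      rw [show n + 2 * (k + 1) = n + 2 * k + 2 by ring]
      nlinarith
    obtain ⟨q, hq⟩ := conv_of_diff_le (y := fun k => x (n + 2 * k + 1)) (M := M) (b := b) hb
      (fun k => hM _) (fun k => by
        have h1 := h.diff (n + 2 * k + 1)
        have h2 := hinc (k + 1)
        have h3 := hn (k + 1)
        have h4 := hn (k + 2)
        show x (n + 2 * (k + 2) + 1) - x (n + 2 * (k + 1) + 1)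
          ≤ b * (x (n + 2 * (k + 1) + 1) - x (n + 2 * k + 1))
        rw [show n + 2 * k + 1 + 4 = n + 2 * (k + 2) + 1 by ring,
          show n + 2 * k + 1 + 2 = n + 2 * (k + 1) + 1 by ring,
          show n + 2 * k + 1 + 3 = n + 2 * (k + 2) by ring,
          show n + 2 * k + 1 + 1 = n + 2 * (k + 1) by ring] at h1
        rw [h1]
        have h5 : (x (n + 2 * (k + 2)) - x (n + 2 * (k + 1)))
            * (x (n + 2 * (k + 2)) + x (n + 2 * (k + 1))) ≤ 0 :=
          mul_nonpos_of_nonneg_of_nonpos (by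
            have : k + 1 + 1 = k + 2 := rfl
            rw [this] at h2; linarith) (by linarith)
        linarith)
    exact two_of_tail n hp hq
  by_cases h0 : ∃ k, 0 ≤ x (2 * k)
  · by_cases h1 : ∃ k, 0 ≤ x (2 * k + 1)
    · obtain ⟨k, hk⟩ := h0
      obtain ⟨j, hj⟩ := h1
      refine two_of_nonneg h hb hM (2 * k + 2 * j + 1) fun n hn => ?_
      rcases Nat.even_or_odd' n with ⟨m, rfl | rfl⟩
      · have := keep _ hk (m - k)
        rwa [show 2 * k + 2 * (m - k) = 2 * m by omega] at this
      · have := keep _ hj (m - j)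
        rwa [show 2 * j + 1 + 2 * (m - j) = 2 * m + 1 by omega] at this
    · push Not at h1
      exact negc 1 fun k => by rw [add_comm]; exact h1 k
  · push Not at h0
    exact negc 0 fun k => by rw [zero_add]; exact h0 k

/-- the main case: `-(1-b)^2 ≤ c < 0`, the orbit stays above `L` -/
theorem two_of_ge {b c M L : ℝ} {x : ℕ → ℝ} (h : IsOrb b c x) (hb : 0 < b) (hb1 : b < 1)
    (hc : c < 0) (hL0 : L < 0) (hL2 : L ^ 2 ≤ -c)
    (hM : ∀ n, |x n| ≤ M) (hx : ∀ n, L ≤ x n) : Two x := by
  -- two consecutive nonpositive terms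
  by_cases hS : ∃ n, x n ≤ 0 ∧ x (n + 1) ≤ 0
  · obtain ⟨n, h0, h1⟩ := hS
    have hall : ∀ k, x (n + k) ≤ 0 ∧ x (n + k + 1) ≤ 0 := by
      intro k
      induction k with
      | zero => exact ⟨h0, h1⟩
      | succ k ih =>
        refine ⟨ih.2, ?_⟩
        rw [show n + (k + 1) + 1 = n + k + 2 by ring, h]
        have h2 := hx (n + k + 1)
        have h3 : x (n + k + 1) ^ 2 ≤ L ^ 2 := by nlinarith [ih.2]
        have h4 := mul_nonpos_of_nonneg_of_nonpos hb.le ih.1
        linarith
    refine two_of_nonpos h hb.le hM n fun m hm => ?_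
    have := (hall (m - n)).1
    rwa [show n + (m - n) = m by omega] at this
  push Not at hS
  by_cases hP : ∃ N, ∀ n, N ≤ n → 0 < x n
  · obtain ⟨N, hN⟩ := hP
    exact two_of_nonneg h hb.le hM N fun n hn => (hN n hn).le
  push Not at hP
  -- `β`
  obtain ⟨β, hβ0, hβ⟩ : ∃ β : ℝ, 0 < β ∧ β ^ 2 = (1 - b) * β - c := by
    refine ⟨((1 - b) + √((1 - b) ^ 2 - 4 * c)) / 2, ?_, ?_⟩
    · have : 0 ≤ √((1 - b) ^ 2 - 4 * c) := Real.sqrt_nonneg _
      linarith
    · have : √((1 - b) ^ 2 - 4 * c) ^ 2 = (1 - b) ^ 2 - 4 * c :=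
        Real.sq_sqrt (by nlinarith [sq_nonneg (1 - b)])
      nlinarith
  have hβb : 1 - b < β := by
    by_contra hcon
    push Not at hcon
    nlinarith
  -- the elementary inequality
  have key : ∀ t, L ≤ t → t ≤ β → t ^ 2 + c ≤ (1 - b) * max t 0 := by
    intro t h1 h2
    rcases le_total t 0 with h3 | h3
    · rw [max_eq_right h3]; nlinarith
    · rw [max_eq_left h3]
      have : (t - β) * (t + β - (1 - b)) ≤ 0 :=
        mul_nonpos_of_nonpos_of_nonneg (by linarith) (by linarith)
      nlinarith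
  by_cases hB : ∃ n, x n < β ∧ x (n + 1) < β
  · obtain ⟨n1, h0, h1⟩ := hB
    set P : ℕ → ℝ := fun k => max (max (x (n1 + k)) 0) (max (x (n1 + k + 1)) 0) with hPdef
    have hP0 : ∀ k, 0 ≤ P k := fun k => (le_max_right _ _).trans (le_max_left _ _)
    have hPx : ∀ k, max (x (n1 + k)) 0 ≤ P k := fun k => le_max_left _ _
    have hPx' : ∀ k, max (x (n1 + k + 1)) 0 ≤ P k := fun k => le_max_right _ _
    have nxt : ∀ k, P k < β → x (n1 + k + 2) ≤
        (1 - b) * max (x (n1 + k + 1)) 0 + b * max (x (n1 + k)) 0 := by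
      intro k hk
      rw [h]
      have h2 := key (x (n1 + k + 1)) (hx _) ((le_max_left _ _).trans (((hPx' k).trans hk.le)))
      have h3 : b * x (n1 + k) ≤ b * max (x (n1 + k)) 0 :=
        mul_le_mul_of_nonneg_left (le_max_left _ _) hb.le
      linarith
    have nxt0 : ∀ k, P k < β → max (x (n1 + k + 2)) 0 ≤
        (1 - b) * max (x (n1 + k + 1)) 0 + b * max (x (n1 + k)) 0 := by
      intro k hk
      refine max_le (nxt k hk) ?_
      have h2 : 0 ≤ max (x (n1 + k + 1)) 0 := le_max_right _ _
      have h3 : 0 ≤ max (x (n1 + k)) 0 := le_max_right _ _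
      have h4 : 0 ≤ (1 - b) * max (x (n1 + k + 1)) 0 := mul_nonneg (by linarith) h2
      have h5 : 0 ≤ b * max (x (n1 + k)) 0 := mul_nonneg hb.le h3
      linarith
    have hdec : ∀ k, P k < β → P (k + 1) ≤ P k := by
      intro k hk
      refine max_le ?_ ?_
      · exact hPx' k
      · have h2 := nxt0 k hk
        rw [show n1 + (k + 1) + 1 = n1 + k + 2 by ring]
        have h3 : (1 - b) * max (x (n1 + k + 1)) 0 ≤ (1 - b) * P k :=
          mul_le_mul_of_nonneg_left (hPx' k) (by linarith)
        have h4 : b * max (x (n1 + k)) 0 ≤ b * P k := mul_le_mul_of_nonneg_left (hPx k) hb.le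
        linarith
    have hlt : ∀ k, P k < β := by
      intro k
      induction k with
      | zero => exact max_lt (max_lt h0 hβ0) (max_lt h1 hβ0)
      | succ k ih => exact (hdec k ih).trans_lt ih
    have hanti : Antitone P := antitone_nat_of_succ_le fun k => hdec k (hlt k)
    have hcontr : ∀ k, x (n1 + k + 1) ≤ 0 → P (k + 2) ≤ b * P k := by
      intro k hk
      have e0 : max (x (n1 + k + 1)) 0 = 0 := max_eq_right hk
      have h2 : max (x (n1 + k + 2)) 0 ≤ b * P k := by
        have := nxt0 k (hlt k)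
        rw [e0, mul_zero, zero_add] at this
        exact this.trans (mul_le_mul_of_nonneg_left (hPx k) hb.le)
      have h3 : max (x (n1 + (k + 1) + 2)) 0 ≤ b * P k := by
        have h4 := nxt0 (k + 1) (hlt (k + 1))
        rw [show n1 + (k + 1) + 1 = n1 + k + 2 by ring, show n1 + (k + 1) = n1 + k + 1 by ring,
          e0, mul_zero, add_zero] at h4
        rw [show n1 + (k + 1) + 2 = n1 + k + 1 + 2 by ring]
        refine h4.trans ?_
        have h5 : 0 ≤ max (x (n1 + k + 2)) 0 := le_max_right _ _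
        nlinarith
      refine max_le ?_ ?_
      · rw [show n1 + (k + 2) = n1 + k + 2 by ring]; exact h2
      · rw [show n1 + (k + 2) + 1 = n1 + (k + 1) + 2 by ring]; exact h3
    -- limit of `P`
    have hlim : Tendsto P atTop (𝓝 (⨅ k, P k)) :=
      tendsto_atTop_ciInf hanti ⟨0, by rintro _ ⟨k, rfl⟩; exact hP0 k⟩
    set ℓ := ⨅ k, P k with hℓ
    have hℓ0 : 0 ≤ ℓ := ge_of_tendsto' hlim hP0
    have hfreq : ∃ᶠ k in atTop, P (k + 2) ≤ b * P k := by
      rw [frequently_atTop]
      intro K
      obtain ⟨m, hm, hxm⟩ := hP (n1 + K + 1)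
      refine ⟨m - n1 - 1, by omega, hcontr _ ?_⟩
      rwa [show n1 + (m - n1 - 1) + 1 = m by omega]
    have hℓb : ℓ ≤ b * ℓ :=
      le_of_tendsto_of_tendsto_of_frequently (hlim.comp (tendsto_add_atTop_nat 2))
        (hlim.const_mul b) hfreq
    have hℓz : ℓ = 0 := by nlinarith
    rw [hℓz] at hlim
    -- eventually `P k` is small
    obtain ⟨K, hK⟩ := (hlim.eventually (gt_mem_nhds (show (0 : ℝ) < min 1 (-c) by
      exact lt_min one_pos (by linarith)))).exists_forall_of_atTop
    obtain ⟨m, hm, hxm⟩ := hP (n1 + K)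
    have hpat : ∀ k, x (m + 2 * k) ≤ 0 ∧ 0 < x (m + 2 * k + 1) := by
      intro k
      induction k with
      | zero => exact ⟨hxm, hS m hxm⟩
      | succ k ih =>
        have h2 : x (m + 2 * k + 2) ≤ 0 := by
          rw [h]
          have h3 := hK (m + 2 * k + 1 - n1) (by omega)
          have h4 := hPx (m + 2 * k + 1 - n1)
          rw [show n1 + (m + 2 * k + 1 - n1) = m + 2 * k + 1 by omega] at h4
          have h5 : x (m + 2 * k + 1) < 1 :=
            lt_of_le_of_lt ((le_max_left _ _).trans h4) (h3.trans_le (min_le_left _ _))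
          have h6 : x (m + 2 * k + 1) < -c :=
            lt_of_le_of_lt ((le_max_left _ _).trans h4) (h3.trans_le (min_le_right _ _))
          have h7 := mul_nonpos_of_nonneg_of_nonpos hb.le ih.1
          nlinarith [ih.2]
        exact ⟨by rwa [show m + 2 * (k + 1) = m + 2 * k + 2 by ring],
          by rw [show m + 2 * (k + 1) + 1 = m + 2 * k + 2 + 1 by ring]; exact hS _ h2⟩
    have hposdec : ∀ k, x (m + 2 * (k + 1) + 1) ≤ x (m + 2 * k + 1) := by
      intro k
      rw [show m + 2 * (k + 1) + 1 = m + 2 * k + 1 + 2 by ring, h]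
      have h2 := hx (m + 2 * k + 1 + 1)
      have h3 := (hpat (k + 1)).1
      rw [show m + 2 * (k + 1) = m + 2 * k + 1 + 1 by ring] at h3
      have h4 := (hpat k).2
      nlinarith
    obtain ⟨q, hq⟩ := conv_of_sign (y := fun k => x (m + 2 * k + 1)) (M := M) (fun k => hM _)
      (Or.inr fun k => hposdec k)
    obtain ⟨p, hp⟩ := conv_of_diff_le (y := fun k => x (m + 2 * k)) (M := M) (b := b) hb.le
      (fun k => hM _) (fun k => by
        have h1 := h.diff (m + 2 * k)
        show x (m + 2 * (k + 2)) - x (m + 2 * (k + 1))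
          ≤ b * (x (m + 2 * (k + 1)) - x (m + 2 * k))
        rw [show m + 2 * k + 4 = m + 2 * (k + 2) by ring,
          show m + 2 * k + 2 = m + 2 * (k + 1) by ring,
          show m + 2 * k + 3 = m + 2 * (k + 1) + 1 by ring] at h1
        rw [h1]
        have h5 : (x (m + 2 * (k + 1) + 1) - x (m + 2 * k + 1))
            * (x (m + 2 * (k + 1) + 1) + x (m + 2 * k + 1)) ≤ 0 :=
          mul_nonpos_of_nonpos_of_nonneg (by linarith [hposdec k])
            (by linarith [(hpat k).2, (hpat (k + 1)).2])
        linarith)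
    exact two_of_tail m hp hq
  · -- impossible
    exfalso
    push Not at hB
    have back : ∀ n, x (n + 2) ≤ 0 → x n ≤ 0 := by
      intro n hn
      by_contra hcon
      push Not at hcon
      have h1 : β ≤ x (n + 1) := by
        by_contra h2
        push Not at h2
        have := hB (n + 1) h2
        rw [show n + 1 + 1 = n + 2 by ring] at this
        linarith
      have h2 := h n
      have h3 := mul_pos hb hcon
      nlinarith
    have back' : ∀ n k, x (n + 2 * k) ≤ 0 → x n ≤ 0 := by
      intro n k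
      induction k with
      | zero => exact id
      | succ k ih =>
        intro hk
        exact ih (back _ (by rwa [show n + 2 * (k + 1) = n + 2 * k + 2 by ring] at hk))
    -- a whole class is nonpositive
    obtain ⟨r, hr⟩ : ∃ r, ∀ k, x (r + 2 * k) ≤ 0 := by
      by_cases hev : ∀ N, ∃ k, N ≤ k ∧ x (2 * k) ≤ 0
      · refine ⟨0, fun k => ?_⟩
        obtain ⟨j, hj, hxj⟩ := hev k
        refine back' _ (j - k) ?_
        rwa [show 0 + 2 * k + 2 * (j - k) = 2 * j by omega]
      · push Not at hev
        obtain ⟨N, hN⟩ := hev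
        refine ⟨1, fun k => ?_⟩
        obtain ⟨m, hm, hxm⟩ := hP (2 * N + 2 * k + 2)
        rcases Nat.even_or_odd' m with ⟨j, rfl | rfl⟩
        · exact absurd hxm (not_le.2 (hN j (by omega)))
        · refine back' _ (j - k) ?_
          rwa [show 1 + 2 * k + 2 * (j - k) = 2 * j + 1 by omega]
    have hup : ∀ k, x r + k * ((1 - b) * β) ≤ x (r + 2 * k) := by
      intro k
      induction k with
      | zero => simp
      | succ k ih =>
        rw [show r + 2 * (k + 1) = r + 2 * k + 2 by ring, h]
        have h1 : β ≤ x (r + 2 * k + 1) := by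
          by_contra h2
          push Not at h2
          have h3 := hr k
          exact absurd (hB (r + 2 * k) (by linarith)) (not_le.2 h2)
        have h3 := hr k
        have h4 : (1 - b) * x (r + 2 * k) ≤ 0 :=
          mul_nonpos_of_nonneg_of_nonpos (by linarith) h3
        push_cast
        nlinarith
    obtain ⟨k, hk⟩ := exists_nat_gt ((-x r) / ((1 - b) * β))
    have hpos : 0 < (1 - b) * β := mul_pos (by linarith) hβ0
    rw [div_lt_iff₀ hpos] at hk
    have h1 := hup k
    have h2 := hr k
    linarith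

/-- **every bounded orbit has convergent parity classes if `-(1-b)^2 ≤ c`** -/
theorem two_of_bounded {b c M : ℝ} {x : ℕ → ℝ} (h : IsOrb b c x) (hb : 0 < b) (hb1 : b < 1)
    (hc : -(1 - b) ^ 2 ≤ c) (hM : ∀ n, |x n| ≤ M) : Two x := by
  rcases le_or_gt 0 c with hc0 | hc0
  · exact two_of_c_nonneg h hb.le hb1 hc0 hM
  have h1b : 0 < 1 - b := by linarith
  set L := c / (1 - b) with hLd
  have hLm : L * (1 - b) = c := div_mul_cancel₀ _ h1b.ne'
  have hL : L = c + b * L := by linarith
  have hL0 : L < 0 := div_neg_of_neg_of_pos hc0 h1b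
  have hL1 : -(1 - b) ≤ L := by
    by_contra hcon
    push Not at hcon
    nlinarith
  have hL2 : L ^ 2 ≤ -c := by nlinarith
  have step : ∀ n, x (n + 2) - L = x (n + 1) ^ 2 + b * (x n - L) := fun n => by
    rw [h]; linear_combination (-1 : ℝ) * hL
  have keep : ∀ n, L ≤ x n → ∀ k, L ≤ x (n + 2 * k) := by
    intro n hn k
    induction k with
    | zero => exact hn
    | succ k ih =>
      have h1 := step (n + 2 * k)
      have h2 := mul_nonneg hb.le (sub_nonneg.2 ih)
      rw [show n + 2 * (k + 1) = n + 2 * k + 2 by ring]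
      nlinarith [sq_nonneg (x (n + 2 * k + 1))]
  -- a class that is always below `L`
  have negc : ∀ n, (∀ k, x (n + 2 * k) < L) → Two x := by
    intro n hn
    have hinc : ∀ k, x (n + 2 * k) ≤ x (n + 2 * (k + 1)) := fun k => by
      have h1 := step (n + 2 * k)
      have h2 := hn k
      rw [show n + 2 * (k + 1) = n + 2 * k + 2 by ring]
      nlinarith [sq_nonneg (x (n + 2 * k + 1))]
    obtain ⟨p, hp⟩ := conv_of_sign (y := fun k => x (n + 2 * k)) (M := M) (fun k => hM _)
      (Or.inl hinc)
    have hp' : Tendsto (fun k => x (n + 2 * (k + 1))) atTop (𝓝 p) :=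
      hp.comp (tendsto_add_atTop_nat 1)
    have hpL : p ≤ L := le_of_tendsto' hp fun k => (hn k).le
    have hsq : ∀ k, x (n + 2 * k + 1) ^ 2 = (x (n + 2 * (k + 1)) - L) - b * (x (n + 2 * k) - L) :=
      fun k => by
        rw [show n + 2 * (k + 1) = n + 2 * k + 2 by ring, step]; ring
    have hlim : Tendsto (fun k => x (n + 2 * k + 1) ^ 2) atTop (𝓝 ((p - L) - b * (p - L))) := by
      simp_rw [hsq]
      exact (hp'.sub_const L).sub ((hp.sub_const L).const_mul b)
    have hge : 0 ≤ (p - L) - b * (p - L) := ge_of_tendsto' hlim fun k => sq_nonneg _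
    have hpe : p = L := by nlinarith
    rw [hpe, sub_self, mul_zero, sub_zero] at hlim
    have hq : Tendsto (fun k => x (n + 2 * k + 1)) atTop (𝓝 0) := by
      have h2 := (Real.continuous_sqrt.tendsto 0).comp hlim
      rw [Real.sqrt_zero] at h2
      refine (tendsto_zero_iff_abs_tendsto_zero _).2 (h2.congr fun k => ?_)
      simp [Real.sqrt_sq_eq_abs]
    exact two_of_tail n hp hq
  by_cases h0 : ∃ k, L ≤ x (2 * k)
  · by_cases h1 : ∃ k, L ≤ x (2 * k + 1)
    · obtain ⟨k, hk⟩ := h0
      obtain ⟨j, hj⟩ := h1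
      have hge : ∀ n, L ≤ x (n + (2 * k + 2 * j)) := by
        intro n
        rcases Nat.even_or_odd' n with ⟨m, rfl | rfl⟩
        · have := keep _ hk (m + j)
          rwa [show 2 * k + 2 * (m + j) = 2 * m + (2 * k + 2 * j) by ring] at this
        · have := keep _ hj (m + k)
          rwa [show 2 * j + 1 + 2 * (m + k) = 2 * m + 1 + (2 * k + 2 * j) by ring] at this
      obtain ⟨p, q, hp, hq⟩ := two_of_ge (h.shift (2 * k + 2 * j)) hb hb1 hc0 hL0 hL2
        (fun n => hM _) hge
      refine ⟨p, q, ?_, ?_⟩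
      · rw [← tendsto_add_atTop_iff_nat (k + j)]
        refine hp.congr fun n => ?_
        show x (2 * n + (2 * k + 2 * j)) = x (2 * (n + (k + j)))
        congr 1; ring
      · rw [← tendsto_add_atTop_iff_nat (k + j)]
        refine hq.congr fun n => ?_
        show x (2 * n + 1 + (2 * k + 2 * j)) = x (2 * (n + (k + j)) + 1)
        congr 1; ring
    · push Not at h1
      exact negc 1 fun k => by rw [add_comm]; exact h1 k
  · push Not at h0
    exact negc 0 fun k => by rw [zero_add]; exact h0 k

end Pool.Agent.Lib.MP_4785e6_an.Conv
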