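import Mathlib

/-!
# Non-statistical dynamics in the quadratic Hénon family: definitions
-/

set_option autoImplicit false

namespace Pool.Agent.Lib.MP_4785e6_an

open Filter Topology MeasureTheory

/-- the quadratic Hénon map `H_{a,c}(x, y) = (a y + x ^ 2 + c, a x)` -/
def henon (a c : ℝ) (z : ℝ × ℝ) : ℝ × ℝ := (a * z.2 + z.1 ^ 2 + c, a * z.1)

/-- `z` is non-statistical for `f`: the empirical measures `(1/n) ∑_{k<n} δ_{f^k z}` do not
converge in the vague topology -/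
def NonStatistical (f : ℝ × ℝ → ℝ × ℝ) (z : ℝ × ℝ) : Prop :=
  ∃ φ : ℝ × ℝ → ℝ, Continuous φ ∧ HasCompactSupport φ ∧
    ¬ ∃ l : ℝ, Tendsto (fun n : ℕ => (∑ k ∈ Finset.range n, φ (f^[k] z)) / n) atTop (𝓝 l)

/-- the set of non-statistical points of `H_{a,c}` -/
def NS (a c : ℝ) : Set (ℝ × ℝ) := {z | NonStatistical (henon a c) z}

/-- a set of parameters `(a, c)`, `a ≠ 0`, is locally dense if its closure has interior points -/
def LocallyDense (E : Set (ℝ × ℝ)) : Prop := (∀ p ∈ E, p.1 ≠ 0) ∧ (interior (closure E)).Nonempty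

/-- the statement asked for in Q1 -/
def Question : Prop :=
  ∃ ε : ℝ, 0 < ε ∧ ∃ E : Set (ℝ × ℝ), LocallyDense E ∧ ∀ p ∈ E,
    ∃ A : Set (ℝ × ℝ), MeasurableSet A ∧ ENNReal.ofReal ε ≤ volume A ∧
      ∀ z ∈ A, NonStatistical (henon p.1 p.2) z

end Pool.Agent.Lib.MP_4785e6_an
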