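import Pool.Agent.Lib.MP_4785e6_an.Seq

/-!
# Escape
-/

set_option autoImplicit false

namespace Pool.Agent.Lib.MP_4785e6_an.Esc

open Filter Topology Pool.Agent.Lib.MP_4785e6_an.Seq

theorem abs_next {b c : ℝ} {x : ℕ → ℝ} (h : IsOrb b c x) (hb : 0 ≤ b) (n : ℕ) :
    |x (n + 1)| ^ 2 - |c| - b * |x n| ≤ |x (n + 2)| := by
  rw [h n, sq_abs]
  have h1 : x (n + 1) ^ 2 + c + b * x n ≤ |x (n + 1) ^ 2 + c + b * x n| := le_abs_self _
  have h2 : -|c| ≤ c := neg_abs_le c
  have h3 : b * (-|x n|) ≤ b * x n := mul_le_mul_of_nonneg_left (neg_abs_le _) hb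
  linarith

theorem g_mono {b c R t : ℝ} (hb : 0 ≤ b) (hR0 : 0 < R) (hR : (1 + b) * R + |c| < R ^ 2)
    (ht : R ≤ t) : R ^ 2 - (1 + b) * R ≤ t ^ 2 - (1 + b) * t := by
  have h1 : 1 + b < R := by
    by_contra hcon
    push Not at hcon
    have := abs_nonneg c
    nlinarith
  nlinarith [mul_nonneg (sub_nonneg.2 ht) (by linarith : 0 ≤ t + R - (1 + b))]

theorem grow {b c R : ℝ} {x : ℕ → ℝ} (h : IsOrb b c x) (hb : 0 ≤ b) (hR0 : 0 < R)
    (hR : (1 + b) * R + |c| < R ^ 2) {n : ℕ} (h1 : |x n| ≤ |x (n + 1)|) (h2 : R ≤ |x (n + 1)|) :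
    |x (n + 1)| + (R ^ 2 - (1 + b) * R - |c|) ≤ |x (n + 2)| := by
  have h3 := abs_next h hb n
  have h4 := g_mono hb hR0 hR h2
  have h5 : b * |x n| ≤ b * |x (n + 1)| := mul_le_mul_of_nonneg_left h1 hb
  linarith

theorem tendsto_of_big {b c R : ℝ} {x : ℕ → ℝ} (h : IsOrb b c x) (hb : 0 ≤ b) (hR0 : 0 < R)
    (hR : (1 + b) * R + |c| < R ^ 2) {n : ℕ} (h1 : |x n| ≤ |x (n + 1)|) (h2 : R ≤ |x (n + 1)|) :
    Tendsto (fun k => |x k|) atTop atTop := by
  set κ := R ^ 2 - (1 + b) * R - |c| with hκ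
  have hκ0 : 0 < κ := by rw [hκ]; linarith
  have hall : ∀ k : ℕ, |x (n + k)| ≤ |x (n + k + 1)| ∧ R + k * κ ≤ |x (n + k + 1)| := by
    intro k
    induction k with
    | zero => exact ⟨h1, by simpa using h2⟩
    | succ k ih =>
      have h4 : R ≤ |x (n + k + 1)| := le_trans (by
        have : 0 ≤ (k : ℝ) * κ := by positivity
        linarith) ih.2
      have h3 := grow h hb hR0 hR ih.1 h4
      refine ⟨?_, ?_⟩
      · show |x (n + k + 1)| ≤ |x (n + k + 2)|
        linarith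
      · show R + ((k + 1 : ℕ) : ℝ) * κ ≤ |x (n + k + 2)|
        push_cast
        linarith [ih.2]
  rw [← tendsto_add_atTop_iff_nat (n + 1)]
  refine tendsto_atTop_mono (fun k => ?_) (tendsto_atTop_add_const_left atTop R
    (tendsto_natCast_atTop_atTop.atTop_mul_const hκ0))
  have := (hall k).2
  rwa [show k + (n + 1) = n + k + 1 by ring]

/-- every orbit is bounded or escapes -/
theorem bdd_or_tendsto {b c : ℝ} {x : ℕ → ℝ} (h : IsOrb b c x) (hb : 0 ≤ b) :
    (∃ M, ∀ n, |x n| ≤ M) ∨ Tendsto (fun k => |x k|) atTop atTop := by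
  by_cases hB : ∃ M, ∀ n, |x n| ≤ M
  · exact Or.inl hB
  right
  push Not at hB
  set R := 2 + b + |c| with hRd
  have hc := abs_nonneg c
  have hR0 : 0 < R := by rw [hRd]; linarith
  have hR : (1 + b) * R + |c| < R ^ 2 := by
    rw [hRd]; nlinarith [mul_nonneg hb hc]
  have hex := hB (max R |x 0|)
  classical
  obtain ⟨m, hm⟩ : ∃ m, Nat.find hex = m + 1 := by
    refine Nat.exists_eq_succ_of_ne_zero fun h0 => ?_
    have := Nat.find_spec hex
    rw [h0] at this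
    exact absurd (le_max_right R |x 0|) (not_le.2 this)
  have h1 := Nat.find_spec hex
  have h2 := Nat.find_min hex (m := m) (by omega)
  rw [hm] at h1
  push Not at h2
  exact tendsto_of_big h hb hR0 hR (h2.trans h1.le) ((le_max_left _ _).trans h1.le)

/-- bounded orbits end in `[-R, R]` -/
theorem eventually_le {b c R M : ℝ} {x : ℕ → ℝ} (h : IsOrb b c x) (hb : 0 ≤ b) (hR0 : 0 < R)
    (hR : (1 + b) * R + |c| < R ^ 2) (hM : ∀ n, |x n| ≤ M) : ∃ N, ∀ n, |x (n + N)| ≤ R := by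
  have c1 : ∀ n, R ≤ |x (n + 1)| → |x (n + 1)| < |x n| := by
    intro n hn
    by_contra hcon
    push Not at hcon
    have h1 := tendsto_of_big h hb hR0 hR hcon hn
    obtain ⟨k, hk⟩ := (h1.eventually (eventually_gt_atTop M)).exists
    exact absurd (hM k) (not_le.2 hk)
  have c2 : ∀ n, |x n| ≤ R → |x (n + 1)| ≤ R := by
    intro n hn
    by_contra hcon
    push Not at hcon
    have := c1 n hcon.le
    linarith
  have c3 : ∃ n, |x n| ≤ R := by
    by_contra hcon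
    push Not at hcon
    have hanti : Antitone fun n => |x n| := antitone_nat_of_succ_le fun n =>
      (c1 n (hcon _).le).le
    have hlim : Tendsto (fun n => |x n|) atTop (𝓝 (⨅ n, |x n|)) :=
      tendsto_atTop_ciInf hanti ⟨0, by rintro _ ⟨k, rfl⟩; exact abs_nonneg _⟩
    set ℓ := ⨅ n, |x n| with hℓ
    have hℓR : R ≤ ℓ := ge_of_tendsto' hlim fun n => (hcon n).le
    have l1 : Tendsto (fun n => |x (n + 1)|) atTop (𝓝 ℓ) := hlim.comp (tendsto_add_atTop_nat 1)
    have l2 : Tendsto (fun n => |x (n + 2)|) atTop (𝓝 ℓ) := hlim.comp (tendsto_add_atTop_nat 2)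
    have l3 : ℓ ^ 2 - |c| - b * ℓ ≤ ℓ :=
      le_of_tendsto_of_tendsto' (((l1.pow 2).sub_const _).sub (hlim.const_mul b)) l2
        fun n => abs_next h hb n
    have l4 := g_mono hb hR0 hR hℓR
    linarith
  obtain ⟨N, hN⟩ := c3
  refine ⟨N, fun n => ?_⟩
  induction n with
  | zero => simpa using hN
  | succ n ih =>
    have := c2 _ ih
    rwa [show n + 1 + N = n + N + 1 by ring]

end Pool.Agent.Lib.MP_4785e6_an.Esc
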