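import Mathlib

/-!
# Relaxed iteration `X (n+2) = (1-b) (X (n+1) ^ 2 - γ) + b X n`: tools
-/

set_option autoImplicit false

namespace Pool.Agent.Lib.MP_4785e6_an.FiveQ

open Filter Topology

/-- absorption with step `d` -/
theorem absorb {b K M : ℝ} {y : ℕ → ℝ} (d : ℕ) (hb : 0 ≤ b) (hb1 : b < 1)
    (hM : ∀ n, y n ≤ M) (h : ∀ᶠ n in atTop, y (n + d) ≤ (1 - b) * K + b * y n) :
    ∀ δ > 0, ∀ᶠ n in atTop, y n < K + δ := by
  obtain ⟨N, hN⟩ := eventually_atTop.1 h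
  have key : ∀ k n, N + d * k ≤ n → y n - K ≤ b ^ k * max (M - K) 0 := by
    intro k
    induction k with
    | zero =>
      intro n _
      rw [pow_zero, one_mul]
      exact le_trans (by linarith [hM n]) (le_max_left _ _)
    | succ k ih =>
      intro n hn
      have e : d * (k + 1) = d * k + d := by ring
      rw [e] at hn
      obtain ⟨m, rfl⟩ : ∃ m, n = m + d := ⟨n - d, by omega⟩
      have h1 := hN m (by omega)
      have h2 := ih m (by omega)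
      have h3 := mul_le_mul_of_nonneg_left h2 hb
      rw [pow_succ]
      nlinarith
  intro δ hδ
  have hlim : Tendsto (fun k : ℕ => b ^ k * max (M - K) 0) atTop (𝓝 (0 * max (M - K) 0)) :=
    (tendsto_pow_atTop_nhds_zero_of_lt_one hb hb1).mul_const _
  rw [zero_mul] at hlim
  obtain ⟨k, hk⟩ := (hlim.eventually (gt_mem_nhds hδ)).exists
  filter_upwards [eventually_ge_atTop (N + d * k)] with n hn
  linarith [key k n hn]

theorem absorb_ge {b K M : ℝ} {y : ℕ → ℝ} (d : ℕ) (hb : 0 ≤ b) (hb1 : b < 1)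
    (hM : ∀ n, M ≤ y n) (h : ∀ᶠ n in atTop, (1 - b) * K + b * y n ≤ y (n + d)) :
    ∀ δ > 0, ∀ᶠ n in atTop, K - δ < y n := by
  intro δ hδ
  have := absorb (y := fun n => - y n) (K := -K) (M := -M) d hb hb1
    (fun n => by linarith [hM n]) (h.mono fun n hn => by linarith) δ hδ
  exact this.mono fun n hn => by linarith

/-- the upper limit -/
theorem exists_sup {M : ℝ} {y : ℕ → ℝ} (hM : ∀ n, |y n| ≤ M) :
    ∃ S : ℝ, (∀ δ > 0, ∀ᶠ n in atTop, y n < S + δ) ∧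
      (∀ K, (∀ δ > 0, ∀ᶠ n in atTop, y n < K + δ) → S ≤ K) ∧
      (∀ K, (∀ᶠ n in atTop, K ≤ y n) → K ≤ S) := by
  set A : Set ℝ := {K | ∀ᶠ n in atTop, y n ≤ K} with hA
  have hne : A.Nonempty := ⟨M, Eventually.of_forall fun n => (abs_le.1 (hM n)).2⟩
  have hlow : ∀ L, (∀ᶠ n in atTop, L ≤ y n) → ∀ K ∈ A, L ≤ K := by
    intro L hL K hK
    obtain ⟨n, h1, h2⟩ := (hL.and hK).exists
    exact h1.trans h2
  have hbd : BddBelow A := ⟨-M, fun K hK =>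
    hlow (-M) (Eventually.of_forall fun n => (abs_le.1 (hM n)).1) K hK⟩
  refine ⟨sInf A, fun δ hδ => ?_, fun K hK => ?_, fun K hK => le_csInf hne (hlow K hK)⟩
  · obtain ⟨K, hK, hlt⟩ := exists_lt_of_csInf_lt hne (show sInf A < sInf A + δ by linarith)
    exact Eventually.mono hK fun n hn => lt_of_le_of_lt hn hlt
  · refine le_of_forall_pos_le_add fun δ hδ => csInf_le hbd ?_
    exact (hK δ hδ).mono fun n hn => hn.le

/-- the lower limit -/
theorem exists_inf {M : ℝ} {y : ℕ → ℝ} (hM : ∀ n, |y n| ≤ M) :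
    ∃ S : ℝ, (∀ δ > 0, ∀ᶠ n in atTop, S - δ < y n) ∧
      (∀ K, (∀ δ > 0, ∀ᶠ n in atTop, K - δ < y n) → K ≤ S) ∧
      (∀ K, (∀ᶠ n in atTop, y n ≤ K) → S ≤ K) := by
  obtain ⟨S, h1, h2, h3⟩ := exists_sup (y := fun n => - y n) (M := M)
    (fun n => by rw [abs_neg]; exact hM n)
  refine ⟨-S, fun δ hδ => (h1 δ hδ).mono fun n hn => by linarith, fun K hK => ?_, fun K hK => ?_⟩
  · have := h2 (-K) fun δ hδ => (hK δ hδ).mono fun n hn => by linarith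
    linarith
  · have := h3 (-K) (hK.mono fun n hn => by linarith)
    linarith

theorem tendsto_of_bounds {S : ℝ} {y : ℕ → ℝ} (h1 : ∀ δ > 0, ∀ᶠ n in atTop, y n < S + δ)
    (h2 : ∀ δ > 0, ∀ᶠ n in atTop, S - δ < y n) : Tendsto y atTop (𝓝 S) := by
  rw [Metric.tendsto_nhds]
  intro ε hε
  filter_upwards [h1 ε hε, h2 ε hε] with n a1 a2
  rw [Real.dist_eq, abs_lt]
  constructor <;> linarith

/-- passage to the limit in the parameter -/
theorem le_lim {f : ℝ → ℝ} (hf : Continuous f) {A : ℝ} (h : ∀ δ > 0, A ≤ f δ) : A ≤ f 0 := by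
  have h1 : Tendsto f (𝓝[>] 0) (𝓝 (f 0)) := (hf.tendsto 0).mono_left nhdsWithin_le_nhds
  exact ge_of_tendsto h1 (eventually_mem_nhdsWithin.mono fun δ hδ => h δ hδ)

theorem ge_lim {f : ℝ → ℝ} (hf : Continuous f) {A : ℝ} (h : ∀ δ > 0, f δ ≤ A) : f 0 ≤ A := by
  have h1 : Tendsto f (𝓝[>] 0) (𝓝 (f 0)) := (hf.tendsto 0).mono_left nhdsWithin_le_nhds
  exact le_of_tendsto h1 (eventually_mem_nhdsWithin.mono fun δ hδ => h δ hδ)

/-- convergence of a relaxed sequence -/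
theorem relax_tendsto {b A M : ℝ} {y a : ℕ → ℝ} (hb : 0 ≤ b) (hb1 : b < 1)
    (hM : ∀ n, |y n| ≤ M) (h : ∀ n, y (n + 1) = (1 - b) * a n + b * y n)
    (ha : Tendsto a atTop (𝓝 A)) : Tendsto y atTop (𝓝 A) := by
  have hq : 0 < 1 - b := by linarith
  refine tendsto_of_bounds (fun δ hδ => ?_) (fun δ hδ => ?_)
  · have h1 : ∀ᶠ n in atTop, y (n + 1) ≤ (1 - b) * (A + δ / 2) + b * y n := by
      filter_upwards [ha.eventually (gt_mem_nhds (show A < A + δ / 2 by linarith))] with n hn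
      rw [h]
      have := mul_le_mul_of_nonneg_left hn.le hq.le
      linarith
    have := absorb 1 hb hb1 (fun n => (abs_le.1 (hM n)).2) h1 (δ / 2) (by linarith)
    exact this.mono fun n hn => by linarith
  · have h1 : ∀ᶠ n in atTop, (1 - b) * (A - δ / 2) + b * y n ≤ y (n + 1) := by
      filter_upwards [ha.eventually (lt_mem_nhds (show A - δ / 2 < A by linarith))] with n hn
      rw [h]
      have := mul_le_mul_of_nonneg_left hn.le hq.le
      linarith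
    have := absorb_ge 1 hb hb1 (fun n => (abs_le.1 (hM n)).1) h1 (δ / 2) (by linarith)
    exact this.mono fun n hn => by linarith

theorem alg_g4 {γ w : ℝ} (hγ1 : 1 ≤ γ) (hγ : γ ≤ 5 / 4) (hw : w = (γ ^ 2 - γ) ^ 2) :
    γ ≤ (γ - w) ^ 2 := by
  have h0 : 0 ≤ γ - 1 := by linarith
  have h1 : γ ^ 2 * (γ - 1) ≤ 25 / 64 := by
    have h2 : γ ^ 2 ≤ 25 / 16 := by nlinarith
    nlinarith
  have h3 : w ≤ 25 / 64 * (γ - 1) := by
    have := mul_le_mul_of_nonneg_right h1 h0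
    rw [hw]
    nlinarith
  have h4 : 1 + 39 / 64 * (γ - 1) ≤ γ - w := by linarith
  have h5 : (1 + 39 / 64 * (γ - 1)) ^ 2 ≤ (γ - w) ^ 2 :=
    pow_le_pow_left₀ (by linarith) h4 2
  nlinarith [sq_nonneg (γ - 1)]

theorem alg_neg {γ α v : ℝ} (hγ1 : 1 ≤ γ) (hα : -(3 / 4) < α) (hα2 : α ^ 2 = α + γ)
    (hα0 : α < 0) (hv : α < v) (hv0 : v < 0) : v < (γ - v ^ 2) ^ 2 - γ := by
  have e3 : (γ - v ^ 2) ^ 2 - γ - v = (v - α) * (v - 1 + α) * (v ^ 2 + v + 1 - γ) := by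
    linear_combination (v ^ 2 + v + 1 - γ) * hα2
  have e4 : (v - α) * (v - 1 + α) < 0 := mul_neg_of_pos_of_neg (by linarith) (by linarith)
  have e5 : v ^ 2 + v + 1 - γ < 0 := by
    have : v * (v + 1) < 0 := mul_neg_of_neg_of_pos hv0 (by linarith)
    nlinarith
  have e6 := mul_pos_of_neg_of_neg e4 e5
  linarith

theorem alg_psi {γ v r : ℝ} (hγ1 : 1 ≤ γ) (hγ : γ ≤ 5 / 4) (hv0 : 0 ≤ v) (hv : v ≤ 5 / 16)
    (hr0 : 0 < r) (hr : 4 * r ^ 2 + 4 * r = 1) : v + ((γ - v ^ 2) ^ 2 - γ) ≤ 2 * r := by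
  have hr1 : r < 1 / 4 := by nlinarith
  have hv2 : v ^ 2 ≤ 25 / 256 := by nlinarith
  have h5 : (γ - v ^ 2) ^ 2 - γ ≤ (5 / 4 - v ^ 2) ^ 2 - 5 / 4 := by
    have : 0 ≤ (5 / 4 - γ) * (5 / 4 + γ - 2 * v ^ 2 - 1) :=
      mul_nonneg (by linarith) (by linarith)
    nlinarith
  have e1 : r ^ 2 = 1 / 4 - r := by linarith
  have e2 : r ^ 3 = (5 * r - 1) / 4 := by
    have : r ^ 3 = r * r ^ 2 := by ring
    rw [this, e1]
    linear_combination (-1 : ℝ) * e1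
  have e3 : r ^ 4 = (5 - 24 * r) / 16 := by
    have : r ^ 4 = r ^ 2 * r ^ 2 := by ring
    rw [this, e1]
    linear_combination e1
  have h6 : 2 * r - (v + ((5 / 4 - v ^ 2) ^ 2 - 5 / 4))
      = (v - r) ^ 2 * (5 / 2 - 3 * r ^ 2 - v ^ 2 - 2 * r * v) := by
    have : (v - r) ^ 2 * (5 / 2 - 3 * r ^ 2 - v ^ 2 - 2 * r * v)
      = -v ^ 4 + 5 / 2 * v ^ 2 - (5 * r - 4 * r ^ 3) * v + (5 / 2 * r ^ 2 - 3 * r ^ 4) := by ring
    rw [this, e3, e2, e1]; ring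
  have h7 : 0 ≤ (v - r) ^ 2 * (5 / 2 - 3 * r ^ 2 - v ^ 2 - 2 * r * v) := by
    refine mul_nonneg (sq_nonneg _) ?_
    have : r * v ≤ 1 / 4 * (5 / 16) := mul_le_mul hr1.le hv hv0 (by norm_num)
    rw [e1]
    linarith
  linarith

theorem alg_last {γ s D r : ℝ} (hγ : γ ≤ 5 / 4) (hs0 : 0 < s) (hs : s ≤ 2 * r) (hD : 0 < D)
    (hr : 4 * r ^ 2 + 4 * r = 1) (hr0 : 0 < r) : s * (2 * γ - (s ^ 2 + D ^ 2) / 2) < 1 := by
  have hr1 : r < 1 / 4 := by nlinarith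
  have e2 : s * (2 * γ - (s ^ 2 + D ^ 2) / 2) < s * (5 / 2 - s ^ 2 / 2) := by
    refine mul_lt_mul_of_pos_left ?_ hs0
    have := pow_pos hD 2
    linarith
  have e1 : r ^ 2 = 1 / 4 - r := by linarith
  have e3' : r ^ 3 = (5 * r - 1) / 4 := by
    have : r ^ 3 = r * r ^ 2 := by ring
    rw [this, e1]
    linear_combination (-1 : ℝ) * e1
  have h6 : 5 * r - 4 * r ^ 3 - s * (5 / 2 - s ^ 2 / 2)
      = (r - s / 2) * (5 - 4 * (r ^ 2 + r * (s / 2) + (s / 2) ^ 2)) := by ring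
  have h7 : 0 ≤ (r - s / 2) * (5 - 4 * (r ^ 2 + r * (s / 2) + (s / 2) ^ 2)) := by
    refine mul_nonneg (by linarith) ?_
    have h8 : s / 2 ≤ r := by linarith
    have h9 : r * (s / 2) ≤ 1 / 4 * (1 / 4) := mul_le_mul hr1.le (by linarith) (by linarith) (by norm_num)
    have h10 : (s / 2) ^ 2 ≤ (1 / 4) ^ 2 := pow_le_pow_left₀ (by linarith) (by linarith) 2
    have h11 : r ^ 2 ≤ (1 / 4) ^ 2 := pow_le_pow_left₀ hr0.le hr1.le 2
    linarith
  linarith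

/-- the final algebra: no 4-cycle of `t ↦ t ^ 2 - γ` for `γ ≤ 5/4` -/
theorem alg {γ α V v U u : ℝ} (hγ1 : 1 ≤ γ) (hγ : γ ≤ 5 / 4) (hα : α < 0)
    (hα2 : α ^ 2 = α + γ) (hv : α < v) (hvV : v ≤ V) (hV : V ≤ γ ^ 2 - γ)
    (huU : u ≤ U) (hU : U < 0) (h1 : V ≤ u ^ 2 - γ) (h2 : U ^ 2 - γ ≤ v)
    (h3 : U ≤ max (V ^ 2) (v ^ 2) - γ) (h4 : 0 ≤ v → v ^ 2 - γ ≤ u) : V = v ∧ U = u := by
  have hα34 : -(3 / 4) < α := by
    by_contra hcon
    push Not at hcon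
    nlinarith
  have hκ : γ ^ 2 - γ ≤ 5 / 16 := by nlinarith
  have hV5 : V ≤ 5 / 16 := hV.trans hκ
  have sq_le : ∀ t : ℝ, 0 ≤ γ - t → U ≤ t - γ → (γ - t) ^ 2 ≤ U ^ 2 := by
    intro t h5 h6
    rw [← neg_sq U]
    exact pow_le_pow_left₀ h5 (by linarith) 2
  -- `0 ≤ v`
  have hv0 : 0 ≤ v := by
    by_contra hcon
    push Not at hcon
    rcases le_or_gt (V ^ 2) (v ^ 2) with hc | hc
    · rw [max_eq_right hc] at h3
      have e1 : v ^ 2 < 9 / 16 := by nlinarith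
      have e2 := sq_le (v ^ 2) (by linarith) h3
      have e3 := alg_neg hγ1 hα34 hα2 hα hv hcon
      linarith
    · rw [max_eq_left hc.le] at h3
      have hVp : 0 < V := by
        by_contra hc2
        push Not at hc2
        have : V ^ 2 ≤ v ^ 2 := by
          rw [← neg_sq V, ← neg_sq v]
          exact pow_le_pow_left₀ (by linarith) (by linarith) 2
        linarith
      have e1 : V ^ 2 ≤ (γ ^ 2 - γ) ^ 2 := pow_le_pow_left₀ hVp.le hV 2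
      have e0 : (γ ^ 2 - γ) ^ 2 ≤ (5 / 16) ^ 2 :=
        pow_le_pow_left₀ (hVp.le.trans hV) hκ 2
      have e2 := sq_le _ (by linarith) (show U ≤ (γ ^ 2 - γ) ^ 2 - γ by linarith)
      have e3 := alg_g4 hγ1 hγ rfl
      linarith
  have hV0 : 0 ≤ V := hv0.trans hvV
  have g4 := h4 hv0
  have hmax : max (V ^ 2) (v ^ 2) = V ^ 2 := max_eq_left (pow_le_pow_left₀ hv0 hvV 2)
  rw [hmax] at h3
  have hv5 : v ≤ 5 / 16 := hvV.trans hV5
  have hv2 : v ^ 2 ≤ (5 / 16) ^ 2 := pow_le_pow_left₀ hv0 hv5 2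
  have hV2 : V ^ 2 ≤ (5 / 16) ^ 2 := pow_le_pow_left₀ hV0 hV5 2
  have a1 : V ≤ (γ - v ^ 2) ^ 2 - γ := by
    have : u ^ 2 ≤ (γ - v ^ 2) ^ 2 := by
      rw [← neg_sq u]
      exact pow_le_pow_left₀ (by linarith) (by linarith) 2
    linarith
  have a2 : (γ - V ^ 2) ^ 2 - γ ≤ v := by
    have := sq_le (V ^ 2) (by linarith) h3
    linarith
  have hVv : V = v := by
    by_contra hne
    have hD : 0 < V - v := sub_pos.2 (lt_of_le_of_ne hvV (Ne.symm hne))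
    obtain ⟨r, hr0, hr⟩ : ∃ r : ℝ, 0 < r ∧ 4 * r ^ 2 + 4 * r = 1 := by
      refine ⟨(√2 - 1) / 2, ?_, ?_⟩
      · have : (1 : ℝ) < √2 := by
          rw [Real.lt_sqrt (by norm_num)]; norm_num
        linarith
      · have := Real.sq_sqrt (show (0 : ℝ) ≤ 2 by norm_num)
        linear_combination this
    have b1 : 1 ≤ (V + v) * (2 * γ - ((V + v) ^ 2 + (V - v) ^ 2) / 2) := by
      have h5 : (V - v) * 1 ≤ (V - v) * ((V + v) * (2 * γ - ((V + v) ^ 2 + (V - v) ^ 2) / 2)) := by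
        have h6 : (V - v) * ((V + v) * (2 * γ - ((V + v) ^ 2 + (V - v) ^ 2) / 2))
          = (γ - v ^ 2) ^ 2 - (γ - V ^ 2) ^ 2 := by ring
        rw [h6]
        linarith
      exact le_of_mul_le_mul_left h5 hD
    have b2 : V + v ≤ 2 * r := by
      have := alg_psi hγ1 hγ hv0 hv5 hr0 hr
      linarith
    have b3 := alg_last hγ (s := V + v) (D := V - v) (by linarith) b2 hD hr hr0
    linarith
  subst hVv
  exact ⟨rfl, le_antisymm (by linarith) huU⟩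

end Pool.Agent.Lib.MP_4785e6_an.FiveQ
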