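import Pool.Agent.Lib.MP_4785e6_an.FiveQ
import Pool.Agent.Lib.MP_4785e6_an.Conv

/-!
# Bounded orbits for `-(5/4) (1-b)^2 ≤ c`
-/

set_option autoImplicit false

namespace Pool.Agent.Lib.MP_4785e6_an.FiveQ

open Filter Topology Pool.Agent.Lib.MP_4785e6_an.Seq

theorem sq_le_max {m M t : ℝ} (h1 : m ≤ t) (h2 : t ≤ M) : t ^ 2 ≤ max (M ^ 2) (m ^ 2) := by
  rcases le_total 0 t with h | h
  · exact le_trans (pow_le_pow_left₀ h h2 2) (le_max_left _ _)
  · refine le_trans ?_ (le_max_right _ _)
    rw [← neg_sq t, ← neg_sq m]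
    exact pow_le_pow_left₀ (by linarith) (by linarith) 2

/-- one class stays above `α`, the other below -/
theorem alt {b γ α M : ℝ} {v u : ℕ → ℝ} (hb : 0 < b) (hb1 : b < 1) (hγ1 : 1 ≤ γ)
    (hγ : γ ≤ 5 / 4) (hα : α < -(3 / 5)) (hα2 : α ^ 2 = α + γ)
    (hvM : ∀ n, |v n| ≤ M) (huM : ∀ n, |u n| ≤ M)
    (hv : ∀ k, v (k + 1) = (1 - b) * (u k ^ 2 - γ) + b * v k)
    (hu : ∀ k, u (k + 1) = (1 - b) * (v (k + 1) ^ 2 - γ) + b * u k)
    (hvα : ∀ k, α ≤ v k) (huα : ∀ k, u k ≤ α)
    (hvκ : ∀ δ > 0, ∀ᶠ n in atTop, v n < γ ^ 2 - γ + δ) :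
    ∃ p q : ℝ, Tendsto v atTop (𝓝 p) ∧ Tendsto u atTop (𝓝 q) := by
  have hq : 0 < 1 - b := by linarith
  by_cases h0 : ∀ k, b * (v k - α) + (α - u k) = 0
  · have e1 : ∀ k, v k = α := fun k => by
      have h1 := h0 k
      have h2 := mul_nonneg hb.le (sub_nonneg.2 (hvα k))
      have h3 : b * (v k - α) = 0 := by linarith [huα k]
      rcases mul_eq_zero.1 h3 with h4 | h4
      · exact absurd h4 hb.ne'
      · linarith
    have e2 : ∀ k, u k = α := fun k => by
      have h1 := h0 k
      rw [e1 k] at h1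
      linarith
    exact ⟨α, α, tendsto_const_nhds.congr fun k => (e1 k).symm,
      tendsto_const_nhds.congr fun k => (e2 k).symm⟩
  push Not at h0
  obtain ⟨k0, hk0⟩ := h0
  have hL0 : 0 < b * (v k0 - α) + (α - u k0) :=
    lt_of_le_of_ne (add_nonneg (mul_nonneg hb.le (sub_nonneg.2 (hvα k0)))
      (sub_nonneg.2 (huα k0))) (Ne.symm hk0)
  set m0 : ℝ := min (b * (v k0 - α) + (α - u k0)) (b * (-2 * α - 1)) with hm0
  have hm0p : 0 < m0 := lt_min hL0 (mul_pos hb (by linarith))
  -- recursions for the distances to `α`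
  have ep : ∀ k, v (k + 1) - α = (1 - b) * ((α - u k) * (-2 * α + (α - u k)))
      + b * (v k - α) := fun k => by
    rw [hv]; linear_combination (1 - b) * hα2
  have er : ∀ k, α - u (k + 1) = (1 - b) * ((v (k + 1) - α) * (-2 * α - (v (k + 1) - α)))
      + b * (α - u k) := fun k => by
    rw [hu]; linear_combination (-(1 - b)) * hα2
  have hL : ∀ j, m0 ≤ b * (v (k0 + j) - α) + (α - u (k0 + j)) := by
    intro j
    induction j with
    | zero => exact min_le_left _ _
    | succ j ih =>
      rw [show k0 + (j + 1) = k0 + j + 1 by ring]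
      set k := k0 + j with hk
      have hp := hvα k
      have hp' := hvα (k + 1)
      have hr := huα k
      have hr' := huα (k + 1)
      rcases le_or_gt (v (k + 1) - α) (-2 * α - 1) with hc | hc
      · have h1 : (1 - b) * (v (k + 1) - α)
            ≤ (1 - b) * ((v (k + 1) - α) * (-2 * α - (v (k + 1) - α))) := by
          refine mul_le_mul_of_nonneg_left ?_ hq.le
          have : 0 ≤ (v (k + 1) - α) * ((-2 * α - 1) - (v (k + 1) - α)) :=
            mul_nonneg (by linarith) (by linarith)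
          linarith
        have h2 : (1 - b) * (α - u k) ≤ (1 - b) * ((α - u k) * (-2 * α + (α - u k))) := by
          refine mul_le_mul_of_nonneg_left ?_ hq.le
          have : 0 ≤ (α - u k) * ((-2 * α - 1) + (α - u k)) :=
            mul_nonneg (by linarith) (by linarith)
          linarith
        have h3 := ep k
        have h4 := er k
        linarith
      · have h1 : b * (-2 * α - 1) ≤ b * (v (k + 1) - α) :=
          mul_le_mul_of_nonneg_left hc.le hb.le
        have h2 : m0 ≤ b * (-2 * α - 1) := min_le_right _ _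
        linarith
  have hlow : ∀ᶠ n in atTop, α + (1 - b) * m0 ≤ v n := by
    filter_upwards [eventually_ge_atTop (k0 + 1)] with n hn
    obtain ⟨j, rfl⟩ : ∃ j, n = k0 + j + 1 := ⟨n - k0 - 1, by omega⟩
    set k := k0 + j with hk
    have h1 := mul_le_mul_of_nonneg_left (hL j) hq.le
    have h2 : (1 - b) * (α - u k) ≤ (1 - b) * ((α - u k) * (-2 * α + (α - u k))) := by
      refine mul_le_mul_of_nonneg_left ?_ hq.le
      have : 0 ≤ (α - u k) * ((-2 * α - 1) + (α - u k)) :=
        mul_nonneg (by linarith [huα k]) (by linarith [huα k])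
      linarith
    have h3 := ep k
    have h4 : 0 ≤ b * (b * (v k - α)) :=
      mul_nonneg hb.le (mul_nonneg hb.le (sub_nonneg.2 (hvα k)))
    linarith
  -- limits
  obtain ⟨V, V1, V2, V3⟩ := exists_sup hvM
  obtain ⟨w, w1, w2, w3⟩ := exists_inf hvM
  obtain ⟨U, U1, U2, U3⟩ := exists_sup huM
  obtain ⟨z, z1, z2, z3⟩ := exists_inf huM
  have hwV : w ≤ V := by
    refine le_of_forall_pos_le_add fun δ hδ => ?_
    have := V3 (w - δ) ((w1 δ hδ).mono fun n hn => hn.le)
    linarith
  have hzU : z ≤ U := by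
    refine le_of_forall_pos_le_add fun δ hδ => ?_
    have := U3 (z - δ) ((z1 δ hδ).mono fun n hn => hn.le)
    linarith
  have hαw : α < w := by
    have h1 := w2 (α + (1 - b) * m0) fun δ hδ => hlow.mono fun n hn => by linarith
    have h2 := mul_pos hq hm0p
    linarith
  have hUα : U ≤ α := U2 α fun δ hδ => Eventually.of_forall fun n => by linarith [huα n]
  have hU0 : U < 0 := by linarith
  have g1 : V ≤ z ^ 2 - γ := by
    have hf : Continuous fun δ : ℝ => (z - δ) ^ 2 - γ := by fun_prop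
    have := le_lim hf (A := V) fun δ hδ => by
      refine V2 _ (absorb 1 hb.le hb1 (fun n => (abs_le.1 (hvM n)).2) ?_)
      filter_upwards [z1 δ hδ] with n hn
      rw [hv]
      have h1 : u n ^ 2 ≤ (z - δ) ^ 2 := by
        rw [← neg_sq (u n), ← neg_sq (z - δ)]
        exact pow_le_pow_left₀ (by linarith [huα n]) (by linarith) 2
      have h2 := mul_le_mul_of_nonneg_left h1 hq.le
      linarith
    simpa using this
  have g2 : U ^ 2 - γ ≤ w := by
    have hf : Continuous fun δ : ℝ => (min (U + δ) 0) ^ 2 - γ := by fun_prop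
    have := ge_lim hf (A := w) fun δ hδ => by
      refine w2 _ (absorb_ge 1 hb.le hb1 (fun n => (abs_le.1 (hvM n)).1) ?_)
      filter_upwards [U1 δ hδ] with n hn
      rw [hv]
      have h1 : (min (U + δ) 0) ^ 2 ≤ u n ^ 2 := by
        rw [← neg_sq (u n), ← neg_sq (min (U + δ) 0)]
        refine pow_le_pow_left₀ (neg_nonneg.2 (min_le_right _ _)) ?_ 2
        refine neg_le_neg (le_min hn.le ?_)
        linarith [huα n]
      have h2 := mul_le_mul_of_nonneg_left h1 hq.le
      linarith
    simp only [add_zero] at this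
    rwa [min_eq_left hU0.le] at this
  have g3 : U ≤ max (V ^ 2) (w ^ 2) - γ := by
    have hf : Continuous fun δ : ℝ => max ((V + δ) ^ 2) ((w - δ) ^ 2) - γ := by fun_prop
    have := le_lim hf (A := U) fun δ hδ => by
      refine U2 _ (absorb 1 hb.le hb1 (fun n => (abs_le.1 (huM n)).2) ?_)
      filter_upwards [(tendsto_add_atTop_nat 1).eventually (V1 δ hδ),
        (tendsto_add_atTop_nat 1).eventually (w1 δ hδ)] with n hn hn'
      rw [hu]
      have h2 := mul_le_mul_of_nonneg_left (sq_le_max hn'.le hn.le) hq.le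
      linarith
    simpa using this
  have g4 : 0 ≤ w → w ^ 2 - γ ≤ z := by
    intro hw0
    have hf : Continuous fun δ : ℝ => (max (w - δ) 0) ^ 2 - γ := by fun_prop
    have := ge_lim hf (A := z) fun δ hδ => by
      refine z2 _ (absorb_ge 1 hb.le hb1 (fun n => (abs_le.1 (huM n)).1) ?_)
      filter_upwards [(tendsto_add_atTop_nat 1).eventually (w1 δ hδ)] with n hn
      rw [hu]
      have h1 : (max (w - δ) 0) ^ 2 ≤ v (n + 1) ^ 2 := by
        rcases le_total (w - δ) 0 with h | h
        · rw [max_eq_right h]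
          have := sq_nonneg (v (n + 1))
          simpa using this
        · rw [max_eq_left h]
          exact pow_le_pow_left₀ h hn.le 2
      have h2 := mul_le_mul_of_nonneg_left h1 hq.le
      linarith
    simp only [sub_zero] at this
    rwa [max_eq_left hw0] at this
  obtain ⟨e1, e2⟩ := alg hγ1 hγ (by linarith) hα2 hαw hwV (V2 _ hvκ) hzU hU0 g1 g2 g3 g4
  exact ⟨V, U, tendsto_of_bounds V1 (e1 ▸ w1), tendsto_of_bounds U1 (e2 ▸ z1)⟩

end Pool.Agent.Lib.MP_4785e6_an.FiveQ
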