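import Pool.Agent.Lib.MP_4785e6_an.FiveQAlt

/-!
# Bounded orbits for `-(5/4) (1-b)^2 ≤ c`: the main case
-/

set_option autoImplicit false

namespace Pool.Agent.Lib.MP_4785e6_an.FiveQ

open Filter Topology Pool.Agent.Lib.MP_4785e6_an.Seq

/-- the relaxed recursion -/
def Rel (b γ : ℝ) (X : ℕ → ℝ) : Prop := ∀ n, X (n + 2) = (1 - b) * (X (n + 1) ^ 2 - γ) + b * X n

theorem two_unscale {q : ℝ} (hq : q ≠ 0) {X : ℕ → ℝ} (h : Two fun n => q * X n) : Two X := by
  obtain ⟨p, r, hp, hr⟩ := h
  refine ⟨q⁻¹ * p, q⁻¹ * r, (hp.const_mul q⁻¹).congr fun n => ?_,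
    (hr.const_mul q⁻¹).congr fun n => ?_⟩
  · rw [inv_mul_cancel_left₀ hq]
  · rw [inv_mul_cancel_left₀ hq]

theorem two_scale {q : ℝ} {X : ℕ → ℝ} (h : Two X) : Two fun n => q * X n := by
  obtain ⟨p, r, hp, hr⟩ := h
  exact ⟨q * p, q * r, hp.const_mul q, hr.const_mul q⟩

theorem two_of_tendsto {X : ℕ → ℝ} {p : ℝ} (h : Tendsto X atTop (𝓝 p)) : Two X := by
  have h2 : Tendsto (fun n : ℕ => 2 * n) atTop atTop :=
    tendsto_id.const_mul_atTop' (by norm_num)
  exact ⟨p, p, h.comp h2, h.comp ((tendsto_add_atTop_nat 1).comp h2)⟩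

theorem Rel.orb {b γ : ℝ} {X : ℕ → ℝ} (h : Rel b γ X) :
    IsOrb b (-γ * (1 - b) ^ 2) fun n => (1 - b) * X n := by
  intro n
  show (1 - b) * X (n + 2) = ((1 - b) * X (n + 1)) ^ 2 + -γ * (1 - b) ^ 2 + b * ((1 - b) * X n)
  rw [h]; ring

theorem two_core {b γ M : ℝ} {X : ℕ → ℝ} (hb : 0 < b) (hb1 : b < 1) (hγ1 : 1 ≤ γ)
    (hγ : γ ≤ 5 / 4) (h : Rel b γ X) (hM : ∀ n, |X n| ≤ M) (hX : ∀ n, -γ ≤ X n) : Two X := by
  have hq : 0 < 1 - b := by linarith
  obtain ⟨β, hβ0, hβ2⟩ : ∃ β : ℝ, 0 < β ∧ β ^ 2 = β + γ := by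
    refine ⟨(1 + √(1 + 4 * γ)) / 2, ?_, ?_⟩
    · have : 0 ≤ √(1 + 4 * γ) := Real.sqrt_nonneg _
      linarith
    · have : √(1 + 4 * γ) ^ 2 = 1 + 4 * γ := Real.sq_sqrt (by linarith)
      linear_combination this / 4
  set α := 1 - β with hαdef
  have hα2 : α ^ 2 = α + γ := by rw [hαdef]; linear_combination hβ2
  have hκ : γ ^ 2 - γ ≤ 5 / 16 := by nlinarith
  have hκ0 : 0 ≤ γ ^ 2 - γ := by nlinarith
  have hα35 : α < -(3 / 5) := by
    by_contra hcon
    push Not at hcon
    have : β ≤ 8 / 5 := by linarith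
    nlinarith
  have hβγ : γ < β := by
    by_contra hcon
    push Not at hcon
    nlinarith
  have hβκ : γ ^ 2 - γ < β := by linarith
  have quad : ∀ t : ℝ, t ^ 2 - γ - t = (t - β) * (t - α) := fun t => by
    rw [hαdef]; linear_combination hβ2
  -- two consecutive terms `≥ β`
  by_cases h1 : ∃ n, β ≤ X n ∧ β ≤ X (n + 1)
  · obtain ⟨n, h0, h1⟩ := h1
    have hall : ∀ k, β ≤ X (n + k) ∧ β ≤ X (n + k + 1) := by
      intro k
      induction k with
      | zero => exact ⟨h0, h1⟩
      | succ k ih =>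
        refine ⟨ih.2, ?_⟩
        rw [show n + (k + 1) + 1 = n + k + 2 by ring, h]
        have h2 : β ^ 2 ≤ X (n + k + 1) ^ 2 := pow_le_pow_left₀ hβ0.le ih.2 2
        have h3 := mul_le_mul_of_nonneg_left h2 hq.le
        have h4 := mul_le_mul_of_nonneg_left ih.1 hb.le
        have h5 : (1 - b) * β ^ 2 = (1 - b) * (β + γ) := by rw [hβ2]
        linarith
    refine two_unscale hq.ne' (two_of_nonneg h.orb hb.le (M := M) (fun k => ?_) n fun k hk => ?_)
    · rw [abs_mul, abs_of_pos hq]
      have := mul_nonneg hb.le (abs_nonneg (X k))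
      linarith [hM k]
    · have := (hall (k - n)).1
      rw [show n + (k - n) = k by omega] at this
      exact mul_nonneg hq.le (by linarith)
  push Not at h1
  by_cases hB : ∃ n, X n < β ∧ X (n + 1) < β
  swap
  · -- strictly alternating around `β`
    push Not at hB
    have main : ∀ r, β ≤ X r → Two X := by
      intro r hr
      have hall : ∀ k, β ≤ X (r + 2 * k) ∧ X (r + 2 * k + 1) < β := by
        intro k
        induction k with
        | zero => exact ⟨hr, h1 r hr⟩
        | succ k ih =>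
          have h2 : β ≤ X (r + 2 * k + 2) := hB _ ih.2
          exact ⟨by rwa [show r + 2 * (k + 1) = r + 2 * k + 2 by ring],
            by rw [show r + 2 * (k + 1) + 1 = r + 2 * k + 2 + 1 by ring]; exact h1 _ h2⟩
      have he : Tendsto (fun k => X (r + 2 * k)) atTop (𝓝 β) := by
        refine tendsto_of_bounds (absorb 1 hb.le hb1 (M := M) (fun n => (abs_le.1 (hM _)).2) ?_)
          fun δ hδ => Eventually.of_forall fun k => by linarith [(hall k).1]
        refine Eventually.of_forall fun k => ?_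
        rw [show r + 2 * (k + 1) = r + 2 * k + 2 by ring, h]
        have h2 : X (r + 2 * k + 1) ^ 2 ≤ β ^ 2 := by
          apply sq_le_sq'
          · linarith [hX (r + 2 * k + 1)]
          · exact (hall k).2.le
        have h3 := mul_le_mul_of_nonneg_left h2 hq.le
        have h5 : (1 - b) * β ^ 2 = (1 - b) * (β + γ) := by rw [hβ2]
        linarith
      have ho : Tendsto (fun k => X (r + 2 * k + 1)) atTop (𝓝 β) := by
        refine relax_tendsto (a := fun k => X (r + 2 * (k + 1)) ^ 2 - γ) hb.le hb1 (M := M)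
          (fun n => hM _) (fun k => ?_) ?_
        · show X (r + 2 * (k + 1) + 1) = _
          rw [show r + 2 * (k + 1) + 1 = r + 2 * k + 1 + 2 by ring, h,
            show r + 2 * k + 1 + 1 = r + 2 * (k + 1) by ring]
        · have h2 := ((he.comp (tendsto_add_atTop_nat 1)).pow 2).sub_const γ
          rwa [show β ^ 2 - γ = β by linarith] at h2
      exact two_of_tail r he ho
    rcases le_or_gt β (X 0) with h2 | h2
    · exact main 0 h2
    · exact main 1 (hB 0 h2)
  -- two consecutive terms `< β`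
  obtain ⟨n1, hn1, hn1'⟩ := hB
  obtain ⟨P, hPβ, hPκ, hP0, hP1⟩ : ∃ P, P < β ∧ γ ^ 2 - γ ≤ P ∧ X n1 ≤ P ∧ X (n1 + 1) ≤ P :=
    ⟨max (max (X n1) (X (n1 + 1))) (γ ^ 2 - γ), max_lt (max_lt hn1 hn1') hβκ,
      le_max_right _ _, (le_max_left _ _).trans (le_max_left _ _),
      (le_max_right _ _).trans (le_max_left _ _)⟩
  have hPall : ∀ k, X (n1 + k) ≤ P ∧ X (n1 + k + 1) ≤ P := by
    intro k
    induction k with
    | zero => exact ⟨hP0, hP1⟩
    | succ k ih =>
      refine ⟨ih.2, ?_⟩
      rw [show n1 + (k + 1) + 1 = n1 + k + 2 by ring, h]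
      have h2 := sq_le_max (hX (n1 + k + 1)) ih.2
      have h3 : max (P ^ 2) ((-γ) ^ 2) - γ ≤ P := by
        rcases le_total (P ^ 2) ((-γ) ^ 2) with h4 | h4
        · rw [max_eq_right h4, neg_sq]; exact hPκ
        · rw [max_eq_left h4]
          have h5 := quad P
          have h6 : (P - β) * (P - α) ≤ 0 :=
            mul_nonpos_of_nonpos_of_nonneg (by linarith) (by linarith)
          linarith
      have h4 := mul_le_mul_of_nonneg_left (show X (n1 + k + 1) ^ 2 - γ ≤ P by linarith) hq.le
      have h5 := mul_le_mul_of_nonneg_left ih.1 hb.le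
      linarith
  obtain ⟨S, S1, S2, S3⟩ := exists_sup hM
  have hSP : S ≤ P := by
    refine S2 P fun δ hδ => ?_
    filter_upwards [eventually_ge_atTop n1] with n hn
    have := (hPall (n - n1)).1
    rw [show n1 + (n - n1) = n by omega] at this
    linarith
  have hSκ : S ≤ γ ^ 2 - γ := by
    have hf : Continuous fun δ : ℝ => max ((S + δ) ^ 2) ((-γ) ^ 2) - γ := by fun_prop
    have h2 := le_lim hf (A := S) fun δ hδ => by
      refine S2 _ (absorb 2 hb.le hb1 (fun n => (abs_le.1 (hM n)).2) ?_)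
      filter_upwards [(tendsto_add_atTop_nat 1).eventually (S1 δ hδ)] with n hn
      rw [h]
      have h3 := mul_le_mul_of_nonneg_left (sq_le_max (hX (n + 1)) hn.le) hq.le
      linarith
    simp only [add_zero] at h2
    by_contra hcon
    push Not at hcon
    rcases le_total (S ^ 2) ((-γ) ^ 2) with h4 | h4
    · rw [max_eq_right h4, neg_sq] at h2; linarith
    · rw [max_eq_left h4] at h2
      have h5 := quad S
      have h6 : (S - β) * (S - α) < 0 := mul_neg_of_neg_of_pos (by linarith) (by linarith)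
      linarith
  have hlim : ∀ δ > 0, ∀ᶠ n in atTop, X n < γ ^ 2 - γ + δ := fun δ hδ =>
    (S1 δ hδ).mono fun n hn => by linarith
  obtain ⟨N, hN⟩ := eventually_atTop.1 (hlim (1 / 8) (by norm_num))
  have hN2 : ∀ n, N ≤ n → X n < 1 / 2 := fun n hn => by linarith [hN n hn]
  have hrec : ∀ n, X (n + 2) - α = (1 - b) * ((X (n + 1) - α) * (X (n + 1) + α))
      + b * (X n - α) := fun n => by
    rw [h]; linear_combination (1 - b) * hα2
  -- alternating around `α`
  have altc : (∃ n, N ≤ n ∧ α ≤ X n ∧ X (n + 1) ≤ α) → Two X := by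
    rintro ⟨n, hn, h0, h1⟩
    have hall : ∀ k, α ≤ X (n + 2 * k) ∧ X (n + 2 * k + 1) ≤ α := by
      intro k
      induction k with
      | zero => exact ⟨h0, h1⟩
      | succ k ih =>
        have e1 : α ≤ X (n + 2 * k + 2) := by
          have h2 := hrec (n + 2 * k)
          have h3 : 0 ≤ (X (n + 2 * k + 1) - α) * (X (n + 2 * k + 1) + α) :=
            mul_nonneg_of_nonpos_of_nonpos (by linarith [ih.2]) (by linarith [ih.2])
          have h4 := mul_nonneg hq.le h3
          have h5 := mul_nonneg hb.le (sub_nonneg.2 ih.1)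
          linarith
        have e2 : X (n + 2 * k + 3) ≤ α := by
          have h2 := hrec (n + 2 * k + 1)
          rw [show n + 2 * k + 1 + 2 = n + 2 * k + 3 by ring,
            show n + 2 * k + 1 + 1 = n + 2 * k + 2 by ring] at h2
          have h3 : (X (n + 2 * k + 2) - α) * (X (n + 2 * k + 2) + α) ≤ 0 :=
            mul_nonpos_of_nonneg_of_nonpos (by linarith)
              (by linarith [hN2 (n + 2 * k + 2) (by omega)])
          have h4 := mul_nonpos_of_nonneg_of_nonpos hq.le h3
          have h5 := mul_nonpos_of_nonneg_of_nonpos hb.le (sub_nonpos.2 ih.2)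
          linarith
        exact ⟨by rwa [show n + 2 * (k + 1) = n + 2 * k + 2 by ring],
          by rwa [show n + 2 * (k + 1) + 1 = n + 2 * k + 3 by ring]⟩
    have htt : Tendsto (fun k : ℕ => n + 2 * k) atTop atTop :=
      tendsto_atTop_mono (fun k => by simp only [id]; omega) tendsto_id
    obtain ⟨p, r, hp, hr⟩ := alt (v := fun k => X (n + 2 * k)) (u := fun k => X (n + 2 * k + 1))
      hb hb1 hγ1 hγ hα35 hα2 (fun k => hM _) (fun k => hM _)
      (fun k => by
        show X (n + 2 * (k + 1)) = _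
        rw [show n + 2 * (k + 1) = n + 2 * k + 2 by ring, h])
      (fun k => by
        show X (n + 2 * (k + 1) + 1) = _
        rw [show n + 2 * (k + 1) + 1 = n + 2 * k + 1 + 2 by ring, h,
          show n + 2 * k + 1 + 1 = n + 2 * (k + 1) by ring])
      (fun k => (hall k).1) (fun k => (hall k).2)
      (fun δ hδ => htt.eventually (hlim δ hδ))
    exact two_of_tail n hp hr
  by_cases hA : ∃ n, N ≤ n ∧ α ≤ X n ∧ X (n + 1) ≤ α
  · exact altc hA
  by_cases hA' : ∃ n, N ≤ n ∧ X n ≤ α ∧ α ≤ X (n + 1)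
  · obtain ⟨n, hn, h0, h1⟩ := hA'
    refine altc ⟨n + 1, by omega, h1, ?_⟩
    have h2 := hrec n
    have h3 : (X (n + 1) - α) * (X (n + 1) + α) ≤ 0 :=
      mul_nonpos_of_nonneg_of_nonpos (by linarith) (by linarith [hN2 (n + 1) (by omega)])
    have h4 := mul_nonpos_of_nonneg_of_nonpos hq.le h3
    have h5 := mul_nonpos_of_nonneg_of_nonpos hb.le (sub_nonpos.2 h0)
    rw [show n + 1 + 1 = n + 2 by ring]
    linarith
  push Not at hA hA'
  rcases le_total α (X N) with h0 | h0
  · have hall : ∀ k, α ≤ X (N + k) := by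
      intro k
      induction k with
      | zero => exact h0
      | succ k ih => exact (hA (N + k) (by omega) ih).le
    refine two_of_tendsto (p := α) (tendsto_of_bounds
      (absorb 2 hb.le hb1 (M := M) (fun n => (abs_le.1 (hM n)).2) ?_) fun δ hδ => ?_)
    · filter_upwards [eventually_ge_atTop N] with n hn
      rw [h]
      have h2 : X (n + 1) ^ 2 ≤ α ^ 2 := by
        have h3 := hall (n + 1 - N)
        rw [show N + (n + 1 - N) = n + 1 by omega] at h3
        rw [← neg_sq α]
        exact sq_le_sq' (by linarith) (by linarith [hN2 (n + 1) (by omega)])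
      have h3 := mul_le_mul_of_nonneg_left h2 hq.le
      have h5 : (1 - b) * α ^ 2 = (1 - b) * (α + γ) := by rw [hα2]
      linarith
    · filter_upwards [eventually_ge_atTop N] with n hn
      have h3 := hall (n - N)
      rw [show N + (n - N) = n by omega] at h3
      linarith
  · have hall : ∀ k, X (N + k) ≤ α := by
      intro k
      induction k with
      | zero => exact h0
      | succ k ih => exact (hA' (N + k) (by omega) ih).le
    refine two_of_tendsto (p := α) (tendsto_of_bounds (fun δ hδ => ?_)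
      (absorb_ge 2 hb.le hb1 (M := -M) (fun n => (abs_le.1 (hM n)).1) ?_))
    · filter_upwards [eventually_ge_atTop N] with n hn
      have h3 := hall (n - N)
      rw [show N + (n - N) = n by omega] at h3
      linarith
    · filter_upwards [eventually_ge_atTop N] with n hn
      rw [h]
      have h2 : α ^ 2 ≤ X (n + 1) ^ 2 := by
        have h3 := hall (n + 1 - N)
        rw [show N + (n + 1 - N) = n + 1 by omega] at h3
        rw [← neg_sq α, ← neg_sq (X (n + 1))]
        exact pow_le_pow_left₀ (by linarith) (by linarith) 2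
      have h3 := mul_le_mul_of_nonneg_left h2 hq.le
      have h5 : (1 - b) * α ^ 2 = (1 - b) * (α + γ) := by rw [hα2]
      linarith

/-- **every bounded orbit has convergent parity classes if `-(5/4) (1-b)^2 ≤ c`** -/
theorem two_of_bounded {b c M : ℝ} {x : ℕ → ℝ} (h : IsOrb b c x) (hb : 0 < b) (hb1 : b < 1)
    (hc : -(5 / 4) * (1 - b) ^ 2 ≤ c) (hM : ∀ n, |x n| ≤ M) : Two x := by
  rcases le_or_gt (-(1 - b) ^ 2) c with hc1 | hc1
  · exact Conv.two_of_bounded h hb hb1 hc1 hM
  have h1b : 0 < 1 - b := by linarith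
  have h1b2 : 0 < (1 - b) ^ 2 := by positivity
  set γ := -c / (1 - b) ^ 2 with hγdef
  have hγc : -γ * (1 - b) ^ 2 = c := by rw [hγdef]; field_simp
  have hγ1 : 1 ≤ γ := by
    rw [hγdef, le_div_iff₀ h1b2]; linarith
  have hγ : γ ≤ 5 / 4 := by
    rw [hγdef, div_le_iff₀ h1b2]; linarith
  set L := -γ * (1 - b) with hLd
  have hL : L = c + b * L := by rw [hLd, ← hγc]; ring
  have step : ∀ n, x (n + 2) - L = x (n + 1) ^ 2 + b * (x n - L) := fun n => by
    rw [h]; linear_combination (-1 : ℝ) * hL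
  have keep : ∀ n, L ≤ x n → ∀ k, L ≤ x (n + 2 * k) := by
    intro n hn k
    induction k with
    | zero => exact hn
    | succ k ih =>
      have h1 := step (n + 2 * k)
      have h2 := mul_nonneg hb.le (sub_nonneg.2 ih)
      rw [show n + 2 * (k + 1) = n + 2 * k + 2 by ring]
      nlinarith [sq_nonneg (x (n + 2 * k + 1))]
  -- a class that is always below `L`
  have negc : ∀ n, (∀ k, x (n + 2 * k) < L) → Two x := by
    intro n hn
    have hinc : ∀ k, x (n + 2 * k) ≤ x (n + 2 * (k + 1)) := fun k => by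
      have h1 := step (n + 2 * k)
      have h2 := hn k
      rw [show n + 2 * (k + 1) = n + 2 * k + 2 by ring]
      nlinarith [sq_nonneg (x (n + 2 * k + 1))]
    obtain ⟨p, hp⟩ := conv_of_sign (y := fun k => x (n + 2 * k)) (M := M) (fun k => hM _)
      (Or.inl hinc)
    have hp' : Tendsto (fun k => x (n + 2 * (k + 1))) atTop (𝓝 p) :=
      hp.comp (tendsto_add_atTop_nat 1)
    have hpL : p ≤ L := le_of_tendsto' hp fun k => (hn k).le
    have hsq : ∀ k, x (n + 2 * k + 1) ^ 2 = (x (n + 2 * (k + 1)) - L) - b * (x (n + 2 * k) - L) :=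
      fun k => by
        rw [show n + 2 * (k + 1) = n + 2 * k + 2 by ring, step]; ring
    have hlim : Tendsto (fun k => x (n + 2 * k + 1) ^ 2) atTop (𝓝 ((p - L) - b * (p - L))) := by
      simp_rw [hsq]
      exact (hp'.sub_const L).sub ((hp.sub_const L).const_mul b)
    have hge : 0 ≤ (p - L) - b * (p - L) := ge_of_tendsto' hlim fun k => sq_nonneg _
    have hpe : p = L := by nlinarith
    rw [hpe, sub_self, mul_zero, sub_zero] at hlim
    have hq : Tendsto (fun k => x (n + 2 * k + 1)) atTop (𝓝 0) := by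
      have h2 := (Real.continuous_sqrt.tendsto 0).comp hlim
      rw [Real.sqrt_zero] at h2
      refine (tendsto_zero_iff_abs_tendsto_zero _).2 (h2.congr fun k => ?_)
      simp [Real.sqrt_sq_eq_abs]
    exact two_of_tail n hp hq
  by_cases h0 : ∃ k, L ≤ x (2 * k)
  · by_cases h1 : ∃ k, L ≤ x (2 * k + 1)
    · obtain ⟨k, hk⟩ := h0
      obtain ⟨j, hj⟩ := h1
      have hge : ∀ n, L ≤ x (n + (2 * k + 2 * j)) := by
        intro n
        rcases Nat.even_or_odd' n with ⟨m, rfl | rfl⟩
        · have := keep _ hk (m + j)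
          rwa [show 2 * k + 2 * (m + j) = 2 * m + (2 * k + 2 * j) by ring] at this
        · have := keep _ hj (m + k)
          rwa [show 2 * j + 1 + 2 * (m + k) = 2 * m + 1 + (2 * k + 2 * j) by ring] at this
      set y : ℕ → ℝ := fun n => x (n + (2 * k + 2 * j)) with hy
      have hyo : IsOrb b c y := h.shift _
      have hT : Two (fun n => (1 - b)⁻¹ * y n) := by
        refine two_core (M := (1 - b)⁻¹ * M) hb hb1 hγ1 hγ (fun n => ?_) (fun n => ?_)
          (fun n => ?_)
        · show (1 - b)⁻¹ * y (n + 2) = (1 - b) * (((1 - b)⁻¹ * y (n + 1)) ^ 2 - γ)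
            + b * ((1 - b)⁻¹ * y n)
          rw [hyo, ← hγc]
          field_simp
          ring
        · rw [abs_mul, abs_of_pos (inv_pos.2 h1b)]
          exact mul_le_mul_of_nonneg_left (hM _) (inv_pos.2 h1b).le
        · have h2 := mul_le_mul_of_nonneg_left (hge n) (inv_pos.2 h1b).le
          rw [hLd] at h2
          have h3 : (1 - b)⁻¹ * (-γ * (1 - b)) = -γ := by field_simp
          rw [h3] at h2
          exact h2
      obtain ⟨p, q, hp, hq⟩ := two_unscale (inv_ne_zero h1b.ne') hT
      refine ⟨p, q, ?_, ?_⟩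
      · rw [← tendsto_add_atTop_iff_nat (k + j)]
        refine hp.congr fun n => ?_
        show x (2 * n + (2 * k + 2 * j)) = x (2 * (n + (k + j)))
        congr 1; ring
      · rw [← tendsto_add_atTop_iff_nat (k + j)]
        refine hq.congr fun n => ?_
        show x (2 * n + 1 + (2 * k + 2 * j)) = x (2 * (n + (k + j)) + 1)
        congr 1; ring
    · push Not at h1
      exact negc 1 fun k => by rw [add_comm]; exact h1 k
  · push Not at h0
    exact negc 0 fun k => by rw [zero_add]; exact h0 k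

end Pool.Agent.Lib.MP_4785e6_an.FiveQ
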