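import Pool.Agent.Lib.MP_4785e6_an.Main
import Pool.Agent.Lib.MP_4785e6_an.FiveQCore

/-!
# Localisation of the question in parameter space, with the constant five quarters
-/

set_option autoImplicit false

namespace Pool.Agent.Lib.MP_4785e6_an.FiveQMain

open Filter Topology MeasureTheory Set Pool.Agent.Lib.MP_4785e6_an.Meas
  Pool.Agent.Lib.MP_4785e6_an.Orbit Pool.Agent.Lib.MP_4785e6_an.Main

/-- **every bounded orbit converges to a cycle of period at most two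
if `-(5/4)(1-a^2)^2 ≤ c`** -/
theorem converge {a c : ℝ} (ha : a ≠ 0) (ha1 : a ^ 2 < 1) (hc : -(5 / 4) * (1 - a ^ 2) ^ 2 ≤ c)
    {z : ℝ × ℝ} (hz : ∃ M, ∀ n, |xs a c z n| ≤ M) :
    ∃ w, henon a c (henon a c w) = w ∧
      Tendsto (fun n => (henon a c)^[2 * n] z) atTop (𝓝 w) ∧
      Tendsto (fun n => (henon a c)^[2 * n + 1] z) atTop (𝓝 (henon a c w)) := by
  obtain ⟨M, hM⟩ := hz
  have hb : 0 < a ^ 2 := by positivity
  obtain ⟨p, q, hp, hq⟩ := FiveQ.two_of_bounded (isOrb a c z) hb ha1 hc hM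
  have h1 : Tendsto (fun n => (henon a c)^[2 * n] z) atTop (𝓝 (p, a * q)) := by
    rw [← tendsto_add_atTop_iff_nat 1]
    have hp' : Tendsto (fun n => xs a c z (2 * (n + 1))) atTop (𝓝 p) :=
      hp.comp (tendsto_add_atTop_nat 1)
    refine (hp'.prodMk_nhds (hq.const_mul a)).congr fun n => ?_
    rw [show 2 * (n + 1) = 2 * n + 1 + 1 by ring]
    refine Prod.ext rfl ?_
    rw [snd_succ]
  have h2 : Tendsto (fun n => (henon a c)^[2 * n + 1] z) atTop (𝓝 (henon a c (p, a * q))) := by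
    refine (((continuous_henon a c).tendsto _).comp h1).congr fun n => ?_
    rw [Function.iterate_succ_apply']; rfl
  refine ⟨(p, a * q), ?_, h1, h2⟩
  have h3 : Tendsto (fun n => (henon a c)^[2 * (n + 1)] z) atTop
      (𝓝 (henon a c (henon a c (p, a * q)))) := by
    refine (((continuous_henon a c).tendsto _).comp h2).congr fun n => ?_
    rw [show 2 * (n + 1) = 2 * n + 1 + 1 by ring, Function.iterate_succ_apply' _ (2 * n + 1)]; rfl
  exact tendsto_nhds_unique h3 (h1.comp (tendsto_add_atTop_nat 1))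

/-- no non-statistical points for `-(5/4)(1-a^2)^2 ≤ c` -/
theorem ns_empty {a c : ℝ} (ha : a ≠ 0) (ha1 : a ^ 2 < 1) (hc : -(5 / 4) * (1 - a ^ 2) ^ 2 ≤ c) :
    NS a c = ∅ := by
  rw [Set.eq_empty_iff_forall_notMem]
  intro z hz
  by_cases hb : ∃ M, ∀ n, |xs a c z n| ≤ M
  · obtain ⟨w, -, h1, h2⟩ := converge ha ha1 hc hb
    obtain ⟨φ, hφc, -, hφ⟩ := hz
    exact hφ ⟨_, cesaro_two (u := fun k => φ ((henon a c)^[k] z)) ((hφc.tendsto _).comp h1)
      ((hφc.tendsto _).comp h2)⟩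
  · exact not_ns_of_unbounded hb hz

/-- the question lives in the window that is left -/
theorem question_iff : Question ↔ ∃ E : Set (ℝ × ℝ), LocallyDense E ∧ ∀ p ∈ E,
    p.1 ^ 2 < 1 ∧ -(2 + √2) * (1 + p.1 ^ 2) ^ 2 ≤ p.2 ∧ p.2 < -(5 / 4) * (1 - p.1 ^ 2) ^ 2 ∧
      volume (NS p.1 p.2) = ⊤ := by
  rw [Main.question_iff]
  constructor
  · rintro ⟨E, hE, h⟩
    refine ⟨E, hE, fun p hp => ?_⟩
    obtain ⟨⟨h1, h2, -⟩, h4⟩ := h p hp
    refine ⟨h1, h2, ?_, h4⟩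
    by_contra hcon
    push Not at hcon
    rw [ns_empty (hE.1 p hp) h1 hcon, measure_empty] at h4
    exact ENNReal.zero_ne_top h4
  · rintro ⟨E, hE, h⟩
    refine ⟨E, hE, fun p hp => ?_⟩
    obtain ⟨h1, h2, h3, h4⟩ := h p hp
    refine ⟨⟨h1, h2, ?_⟩, h4⟩
    nlinarith [sq_nonneg (1 - p.1 ^ 2)]

end Pool.Agent.Lib.MP_4785e6_an.FiveQMain
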