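import Pool.Agent.Lib.MP_4785e6_an.Seq

/-!
# Slices of the set of bounded orbits are null if `c` is very negative
-/

set_option autoImplicit false

namespace Pool.Agent.Lib.MP_4785e6_an.Horse

open Filter Topology MeasureTheory Set

/-- the orbit with `x 0 = s`, `x 1 = τ` -/
noncomputable def X (b c s : ℝ) : ℕ → ℝ → ℝ
  | 0, _ => s
  | 1, τ => τ
  | n + 2, τ => X b c s (n + 1) τ ^ 2 + c + b * X b c s n τ

/-- its derivative in `τ` -/
noncomputable def D (b c s : ℝ) : ℕ → ℝ → ℝ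
  | 0, _ => 0
  | 1, _ => 1
  | n + 2, τ => 2 * X b c s (n + 1) τ * D b c s (n + 1) τ + b * D b c s n τ

theorem hasDeriv (b c s : ℝ) (n : ℕ) (τ : ℝ) :
    HasDerivAt (X b c s n) (D b c s n τ) τ ∧ HasDerivAt (X b c s (n + 1)) (D b c s (n + 1) τ) τ := by
  induction n with
  | zero => exact ⟨hasDerivAt_const _ _, hasDerivAt_id _⟩
  | succ n ih =>
    refine ⟨ih.2, ?_⟩
    have h1 := ((ih.2.pow 2).add_const c).add (ih.1.const_mul b)
    refine h1.congr_deriv ?_
    show _ = 2 * X b c s (n + 1) τ * D b c s (n + 1) τ + b * D b c s n τ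
    simp

theorem hasD (b c s : ℝ) (n : ℕ) (τ : ℝ) : HasDerivAt (X b c s n) (D b c s n τ) τ :=
  (hasDeriv b c s n τ).1

theorem contX (b c s : ℝ) (n : ℕ) : Continuous (X b c s n) :=
  continuous_iff_continuousAt.2 fun τ => (hasD b c s n τ).continuousAt

/-- intermediate points -/
theorem between {f f' : ℝ → ℝ} (hf : ∀ τ, HasDerivAt f (f' τ) τ) {u v w : ℝ} (hw : w ∈ Icc u v)
    (h0 : ∀ τ ∈ Icc u v, f' τ ≠ 0) : min (f u) (f v) ≤ f w ∧ f w ≤ max (f u) (f v) := by
  have huv : u ≤ v := hw.1.trans hw.2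
  have hc : ContinuousOn f (Icc u v) := fun τ _ => (hf τ).continuousAt.continuousWithinAt
  have hinj : InjOn f (Icc u v) := by
    intro p hp q hq hpq
    by_contra hne
    rcases lt_or_gt_of_ne hne with hlt | hlt
    · obtain ⟨ξ, hξ, h1⟩ := exists_hasDerivAt_eq_slope f f' hlt
        (hc.mono (Icc_subset_Icc hp.1 hq.2)) (fun τ _ => hf τ)
      rw [hpq, sub_self, zero_div] at h1
      exact h0 ξ ⟨hp.1.trans hξ.1.le, hξ.2.le.trans hq.2⟩ h1
    · obtain ⟨ξ, hξ, h1⟩ := exists_hasDerivAt_eq_slope f f' hlt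
        (hc.mono (Icc_subset_Icc hq.1 hp.2)) (fun τ _ => hf τ)
      rw [hpq, sub_self, zero_div] at h1
      exact h0 ξ ⟨hq.1.trans hξ.1.le, hξ.2.le.trans hp.2⟩ h1
  rcases hc.strictMonoOn_of_injOn_Icc' huv hinj with hm | hm
  · have h1 := hm.monotoneOn (left_mem_Icc.2 huv) hw hw.1
    have h2 := hm.monotoneOn hw (right_mem_Icc.2 huv) hw.2
    exact ⟨(min_le_left _ _).trans h1, h2.trans (le_max_right _ _)⟩
  · have h1 := hm.antitoneOn (left_mem_Icc.2 huv) hw hw.1
    have h2 := hm.antitoneOn hw (right_mem_Icc.2 huv) hw.2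
    exact ⟨(min_le_right _ _).trans h2, h1.trans (le_max_left _ _)⟩

section

variable {b c s R : ℝ}

/-- the points whose orbit stays in `[-R, R]` up to time `n` -/
def K (b c s R : ℝ) (n : ℕ) : Set ℝ := {τ | ∀ j, j ≤ n → |X b c s j τ| ≤ R}

theorem K_anti {m n : ℕ} (h : m ≤ n) : K b c s R n ⊆ K b c s R m :=
  fun _ hτ j hj => hτ j (hj.trans h)

/-- on `K (n+2)` the terms `1, ..., n+1` are at least `1 + b` in absolute value -/
theorem big (hb : 0 ≤ b) (_hR0 : 0 ≤ R) (hR : -c - (1 + b) * R = (1 + b) ^ 2) {n : ℕ} {τ : ℝ}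
    (h0 : |X b c s n τ| ≤ R) (h2 : |X b c s (n + 2) τ| ≤ R) : 1 + b ≤ |X b c s (n + 1) τ| := by
  have e : X b c s (n + 2) τ = X b c s (n + 1) τ ^ 2 + c + b * X b c s n τ := rfl
  have h3 := abs_le.1 h0
  have h4 := abs_le.1 h2
  have h5 : b * X b c s n τ ≤ b * R := mul_le_mul_of_nonneg_left h3.2 hb
  have h6 : (1 + b) ^ 2 ≤ X b c s (n + 1) τ ^ 2 := by
    rw [e] at h4
    linarith [h4.1]
  have h7 := sq_le_sq.1 h6
  rwa [abs_of_nonneg (by linarith : (0 : ℝ) ≤ 1 + b)] at h7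

/-- growth of the derivative -/
theorem dgrow (hb : 0 ≤ b) (hR0 : 0 ≤ R) (hR : -c - (1 + b) * R = (1 + b) ^ 2) {n : ℕ} {τ : ℝ}
    (hτ : τ ∈ K b c s R (n + 1)) :
    |D b c s n τ| ≤ |D b c s (n + 1) τ| ∧ (2 + b) ^ n ≤ |D b c s (n + 1) τ| := by
  induction n with
  | zero => simp [D]
  | succ n ih =>
    have h1 := ih (K_anti (by omega) hτ)
    have h2 := big hb hR0 hR (hτ n (by omega)) (hτ (n + 2) le_rfl)
    have h3 : (2 + b) * |D b c s (n + 1) τ| ≤ |D b c s (n + 2) τ| := by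
      have e : D b c s (n + 2) τ
        = 2 * X b c s (n + 1) τ * D b c s (n + 1) τ + b * D b c s n τ := rfl
      rw [e]
      have h4 : |2 * X b c s (n + 1) τ * D b c s (n + 1) τ| - |b * D b c s n τ|
          ≤ |2 * X b c s (n + 1) τ * D b c s (n + 1) τ + b * D b c s n τ| := by
        have := abs_sub_abs_le_abs_sub (2 * X b c s (n + 1) τ * D b c s (n + 1) τ)
          (-(b * D b c s n τ))
        rwa [abs_neg, sub_neg_eq_add] at this
      rw [abs_mul, abs_mul, abs_mul, abs_two, abs_of_nonneg hb] at h4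
      have h5 : b * |D b c s n τ| ≤ b * |D b c s (n + 1) τ| := mul_le_mul_of_nonneg_left h1.1 hb
      have h6 : (1 + b) * |D b c s (n + 1) τ|
          ≤ |X b c s (n + 1) τ| * |D b c s (n + 1) τ| :=
        mul_le_mul_of_nonneg_right h2 (abs_nonneg _)
      linarith
    refine ⟨?_, ?_⟩
    · have := abs_nonneg (D b c s (n + 1) τ)
      show |D b c s (n + 1) τ| ≤ |D b c s (n + 2) τ|
      nlinarith
    · show (2 + b) ^ (n + 1) ≤ |D b c s (n + 2) τ|
      have : (2 + b) ^ (n + 1) ≤ (2 + b) * |D b c s (n + 1) τ| := by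
        rw [pow_succ, mul_comm]
        exact mul_le_mul_of_nonneg_left h1.2 (by linarith)
      linarith

theorem dne (hb : 0 ≤ b) (hR0 : 0 ≤ R) (hR : -c - (1 + b) * R = (1 + b) ^ 2) {n : ℕ} {τ : ℝ}
    (hτ : τ ∈ K b c s R (n + 1)) : D b c s (n + 1) τ ≠ 0 := by
  have h := (dgrow hb hR0 hR hτ).2
  have : 0 < (2 + b) ^ n := by positivity
  exact abs_pos.1 (this.trans_le h)

/-- the length of an interval of `K (n+1)` -/
theorem vol_interval (hb : 0 ≤ b) (hR0 : 0 ≤ R) (hR : -c - (1 + b) * R = (1 + b) ^ 2) {n : ℕ}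
    {J : Set ℝ} (hJ : J.OrdConnected) (hJK : J ⊆ K b c s R (n + 1)) :
    volume J ≤ ENNReal.ofReal (2 * R / (2 + b) ^ n) := by
  have hp : 0 < (2 + b) ^ n := by positivity
  refine (Real.volume_le_diam J).trans ?_
  refine Metric.ediam_le_of_forall_dist_le fun u hu v hv => ?_
  have main : ∀ p q, p ∈ J → q ∈ J → p < q → q - p ≤ 2 * R / (2 + b) ^ n := by
    intro p q hpJ hqJ hpq
    obtain ⟨ξ, hξ, h1⟩ := exists_hasDerivAt_eq_slope (X b c s (n + 1)) (D b c s (n + 1)) hpq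
      (contX b c s (n + 1)).continuousOn (fun τ _ => hasD b c s (n + 1) τ)
    have hξJ : ξ ∈ J := hJ.out hpJ hqJ ⟨hξ.1.le, hξ.2.le⟩
    have h2 := (dgrow hb hR0 hR (hJK hξJ)).2
    rw [h1, abs_div, abs_of_pos (sub_pos.2 hpq), le_div_iff₀ (sub_pos.2 hpq)] at h2
    have h3 := abs_le.1 (hJK hpJ (n + 1) le_rfl)
    have h4 := abs_le.1 (hJK hqJ (n + 1) le_rfl)
    have h5 : |X b c s (n + 1) q - X b c s (n + 1) p| ≤ 2 * R :=
      abs_le.2 ⟨by linarith, by linarith⟩
    rw [le_div_iff₀ hp]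
    linarith
  rw [Real.dist_eq]
  rcases lt_trichotomy u v with h | h | h
  · rw [abs_sub_comm, abs_of_pos (sub_pos.2 h)]
    exact main u v hu hv h
  · rw [h, sub_self, abs_zero]; positivity
  · rw [abs_of_pos (sub_pos.2 h)]
    exact main v u hv hu h

/-- the part of `J` with positive, resp. negative, `x (n+1)` -/
theorem part_ordConnected (hb : 0 ≤ b) (hR0 : 0 ≤ R) (hR : -c - (1 + b) * R = (1 + b) ^ 2)
    {n : ℕ} {J : Set ℝ} (hJ : J.OrdConnected) (hJK : J ⊆ K b c s R (n + 1)) {σ : ℝ}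
    (hσ : |σ| = 1) :
    (J ∩ {τ | |X b c s (n + 2) τ| ≤ R ∧ 1 + b ≤ σ * X b c s (n + 1) τ}).OrdConnected := by
  refine ⟨fun u hu v hv w hw => ?_⟩
  have huv : u ≤ v := hw.1.trans hw.2
  have hsub : Icc u v ⊆ J := hJ.out hu.1 hv.1
  have hσ2 : σ = 1 ∨ σ = -1 := by
    rcases abs_choice σ with h | h
    · left; rw [← h, hσ]
    · right; rw [hσ] at h; linarith
  have key : ∀ z ∈ Icc u v, 1 + b ≤ σ * X b c s (n + 1) z := by
    intro z hz
    have h1 := between (hasD b c s (n + 1)) hz fun τ hτ => dne hb hR0 hR (hJK (hsub hτ))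
    have h2 := hu.2.2
    have h3 := hv.2.2
    rcases hσ2 with rfl | rfl
    · have := le_min (by simpa using h2 : 1 + b ≤ X b c s (n + 1) u)
        (by simpa using h3 : 1 + b ≤ X b c s (n + 1) v)
      linarith [h1.1]
    · have := max_le (by linarith : X b c s (n + 1) u ≤ -(1 + b))
        (by linarith : X b c s (n + 1) v ≤ -(1 + b))
      linarith [h1.2]
  refine ⟨hsub hw, ?_, key w hw⟩
  have h4 : ∀ τ ∈ Icc u v, D b c s (n + 2) τ ≠ 0 := by
    intro τ hτ
    have h5 := dgrow hb hR0 hR (hJK (hsub hτ))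
    have h6 : 1 + b ≤ |X b c s (n + 1) τ| := by
      have := key τ hτ
      calc 1 + b ≤ σ * X b c s (n + 1) τ := this
        _ ≤ |σ * X b c s (n + 1) τ| := le_abs_self _
        _ = |X b c s (n + 1) τ| := by rw [abs_mul, hσ, one_mul]
    intro h0
    have e : D b c s (n + 2) τ
        = 2 * X b c s (n + 1) τ * D b c s (n + 1) τ + b * D b c s n τ := rfl
    rw [e] at h0
    have h7 : |2 * X b c s (n + 1) τ * D b c s (n + 1) τ| = |b * D b c s n τ| := by
      rw [← abs_neg (b * D b c s n τ)]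
      congr 1
      linarith
    rw [abs_mul, abs_mul, abs_mul, abs_two, abs_of_nonneg hb] at h7
    have h8 : b * |D b c s n τ| ≤ b * |D b c s (n + 1) τ| := mul_le_mul_of_nonneg_left h5.1 hb
    have h9 : (1 + b) * |D b c s (n + 1) τ| ≤ |X b c s (n + 1) τ| * |D b c s (n + 1) τ| :=
      mul_le_mul_of_nonneg_right h6 (abs_nonneg _)
    have h10 : 0 < (2 + b) ^ n := by positivity
    nlinarith [h5.2]
  have h11 := between (hasD b c s (n + 2)) hw h4
  have h12 := abs_le.1 hu.2.1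
  have h13 := abs_le.1 hv.2.1
  exact abs_le.2 ⟨(le_min h12.1 h13.1).trans h11.1, h11.2.trans (max_le h12.2 h13.2)⟩

theorem vol_le (hb : 0 ≤ b) (hR0 : 0 ≤ R) (hR : -c - (1 + b) * R = (1 + b) ^ 2) (k : ℕ) :
    ∀ (n : ℕ) (J : Set ℝ), J.OrdConnected → J ⊆ K b c s R (n + 1) →
      volume (J ∩ K b c s R (n + 1 + k)) ≤ ENNReal.ofReal (2 ^ k * (2 * R / (2 + b) ^ (n + k))) := by
  induction k with
  | zero =>
    intro n J hJ hJK
    refine (measure_mono inter_subset_left).trans ?_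
    simpa using vol_interval hb hR0 hR hJ hJK
  | succ k ih =>
    intro n J hJ hJK
    set A : ℝ → Set ℝ := fun σ =>
      J ∩ {τ | |X b c s (n + 2) τ| ≤ R ∧ 1 + b ≤ σ * X b c s (n + 1) τ} with hA
    have hAK : ∀ σ, A σ ⊆ K b c s R (n + 1 + 1) := by
      intro σ τ hτ j hj
      rcases Nat.lt_or_ge j (n + 2) with h | h
      · exact hJK hτ.1 j (by omega)
      · obtain rfl : j = n + 2 := by omega
        exact hτ.2.1
    have hsub : J ∩ K b c s R (n + 1 + (k + 1)) ⊆
        (A 1 ∩ K b c s R (n + 1 + 1 + k)) ∪ (A (-1) ∩ K b c s R (n + 1 + 1 + k)) := by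
      intro τ hτ
      have h1 : τ ∈ K b c s R (n + 1 + 1 + k) := by
        have := hτ.2
        rwa [show n + 1 + (k + 1) = n + 1 + 1 + k by ring] at this
      have h2 : |X b c s (n + 2) τ| ≤ R := h1 _ (by omega)
      have h3 := big hb hR0 hR (h1 n (by omega)) h2
      rcases le_total 0 (X b c s (n + 1) τ) with h | h
      · rw [abs_of_nonneg h] at h3
        exact Or.inl ⟨⟨hτ.1, h2, by rwa [one_mul]⟩, h1⟩
      · rw [abs_of_nonpos h] at h3
        exact Or.inr ⟨⟨hτ.1, h2, by linarith⟩, h1⟩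
    refine (measure_mono hsub).trans ((measure_union_le _ _).trans ?_)
    have e1 := ih (n + 1) (A 1) (part_ordConnected hb hR0 hR hJ hJK (by simp)) (hAK 1)
    have e2 := ih (n + 1) (A (-1)) (part_ordConnected hb hR0 hR hJ hJK (by simp)) (hAK (-1))
    refine (add_le_add e1 e2).trans ?_
    rw [← ENNReal.ofReal_add (by positivity) (by positivity)]
    refine ENNReal.ofReal_le_ofReal (le_of_eq ?_)
    rw [show n + 1 + k = n + (k + 1) by ring]
    ring

/-- **the slices are null** -/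
theorem slice_null (hb : 0 < b) (hR0 : 0 ≤ R) (hR : -c - (1 + b) * R = (1 + b) ^ 2) :
    volume {τ | ∀ n, |X b c s n τ| ≤ R} = 0 := by
  rcases lt_or_ge R |s| with hs | hs
  · have : {τ | ∀ n, |X b c s n τ| ≤ R} = (∅ : Set ℝ) := by
      ext τ
      simp only [mem_empty_iff_false, iff_false]
      intro h
      have := h 0
      simp only [X] at this
      linarith
    rw [this, measure_empty]
  have hK1 : K b c s R (0 + 1) = Icc (-R) R := by
    ext τ
    constructor
    · intro h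
      have := h 1 le_rfl
      exact abs_le.1 this
    · intro h j hj
      interval_cases j
      · exact hs
      · exact abs_le.2 h
  have hoc : (K b c s R (0 + 1)).OrdConnected := by rw [hK1]; exact ordConnected_Icc
  have hle : ∀ k : ℕ, volume {τ | ∀ n, |X b c s n τ| ≤ R}
      ≤ ENNReal.ofReal (2 ^ k * (2 * R / (2 + b) ^ (0 + k))) := fun k => by
    refine (measure_mono ?_).trans (vol_le hb.le hR0 hR k 0 _ hoc subset_rfl)
    intro τ hτ
    exact ⟨fun j _ => hτ j, fun j _ => hτ j⟩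
  have hlim : Tendsto (fun k : ℕ => ENNReal.ofReal (2 ^ k * (2 * R / (2 + b) ^ (0 + k)))) atTop
      (𝓝 0) := by
    rw [← ENNReal.ofReal_zero]
    refine ENNReal.tendsto_ofReal ?_
    have h1 : Tendsto (fun k : ℕ => (2 * R) * (2 / (2 + b)) ^ k) atTop (𝓝 ((2 * R) * 0)) :=
      (tendsto_pow_atTop_nhds_zero_of_lt_one (by positivity)
        ((div_lt_one (by linarith)).2 (by linarith))).const_mul _
    rw [mul_zero] at h1
    refine h1.congr fun k => ?_
    rw [zero_add, div_pow]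
    ring
  exact le_antisymm (ge_of_tendsto' hlim hle) bot_le

end

end Pool.Agent.Lib.MP_4785e6_an.Horse
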