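import Pool.Agent.Lib.MP_4785e6_an.Meas

/-!
# Localisation of the question in parameter space
-/

set_option autoImplicit false

namespace Pool.Agent.Lib.MP_4785e6_an.Main

open Filter Topology MeasureTheory Set Pool.Agent.Lib.MP_4785e6_an.Meas
  Pool.Agent.Lib.MP_4785e6_an.Orbit

theorem empty_interior : interior {p : ℝ × ℝ | p.1 ^ 2 = 1} = ∅ := by
  rw [eq_empty_iff_forall_notMem]
  intro p hp
  obtain ⟨ε, hε, hball⟩ := Metric.mem_nhds_iff.1 (mem_interior_iff_mem_nhds.1 hp)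
  have h0 : p.1 ^ 2 = 1 := hball (Metric.mem_ball_self hε)
  have h1 : ∀ t : ℝ, |t| < ε → (p.1 + t) ^ 2 = 1 := by
    intro t ht
    have : ((p.1 + t, p.2) : ℝ × ℝ) ∈ Metric.ball p ε := by
      rw [Metric.mem_ball, Prod.dist_eq]
      refine max_lt ?_ ?_
      · rw [Real.dist_eq]; simpa using ht
      · simpa using hε
    exact hball this
  have h2 := h1 (ε / 2) (by rw [abs_of_pos (by positivity)]; linarith)
  have h3 := h1 (-(ε / 2)) (by rw [abs_neg, abs_of_pos (by positivity)]; linarith)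
  nlinarith [sq_pos_of_pos (half_pos hε)]

theorem locallyDense_inter {E : Set (ℝ × ℝ)} (hE : LocallyDense E) :
    LocallyDense (E ∩ {p | p.1 ^ 2 = 1}ᶜ) := by
  refine ⟨fun p hp => hE.1 p hp.1, ?_⟩
  have hcl : IsClosed {p : ℝ × ℝ | p.1 ^ 2 = 1} :=
    isClosed_eq (continuous_fst.pow 2) continuous_const
  have hsub : interior (closure E) ∩ {p : ℝ × ℝ | p.1 ^ 2 = 1}ᶜ
      ⊆ closure (E ∩ {p | p.1 ^ 2 = 1}ᶜ) := fun p hp =>
    hcl.isOpen_compl.closure_inter ⟨interior_subset hp.1, hp.2⟩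
  have hopen : IsOpen (interior (closure E) ∩ {p : ℝ × ℝ | p.1 ^ 2 = 1}ᶜ) :=
    isOpen_interior.inter hcl.isOpen_compl
  have hne : (interior (closure E) ∩ {p : ℝ × ℝ | p.1 ^ 2 = 1}ᶜ).Nonempty := by
    by_contra hcon
    rw [not_nonempty_iff_eq_empty] at hcon
    have h1 : interior (closure E) ⊆ {p : ℝ × ℝ | p.1 ^ 2 = 1} := by
      intro p hp
      by_contra h
      have : p ∈ interior (closure E) ∩ {p : ℝ × ℝ | p.1 ^ 2 = 1}ᶜ := ⟨hp, h⟩
      rw [hcon] at this
      exact this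
    have h2 := interior_maximal h1 isOpen_interior
    rw [empty_interior] at h2
    obtain ⟨p, hp⟩ := hE.2
    exact h2 hp
  exact hne.mono (interior_maximal hsub hopen)

/-- the window of parameters that is left -/
def Window (p : ℝ × ℝ) : Prop :=
  p.1 ^ 2 < 1 ∧ -(2 + √2) * (1 + p.1 ^ 2) ^ 2 ≤ p.2 ∧ p.2 < -(1 - p.1 ^ 2) ^ 2

theorem question_iff : Question ↔ ∃ E : Set (ℝ × ℝ), LocallyDense E ∧
    ∀ p ∈ E, Window p ∧ volume (NS p.1 p.2) = ⊤ := by
  constructor
  · rintro ⟨ε, hε, E, hE, h⟩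
    have hpos : ∀ p ∈ E, volume (NS p.1 p.2) ≠ 0 := by
      intro p hp h0
      obtain ⟨A, -, hA, hA'⟩ := h p hp
      have : volume A ≤ volume (NS p.1 p.2) := measure_mono hA'
      rw [h0] at this
      have h2 := hA.trans this
      rw [nonpos_iff_eq_zero, ENNReal.ofReal_eq_zero] at h2
      linarith
    refine ⟨E ∩ {p | p.1 ^ 2 = 1}ᶜ, locallyDense_inter hE, ?_⟩
    rintro p ⟨hp, hp1⟩
    have ha : p.1 ≠ 0 := hE.1 p hp
    have hp1' : p.1 ^ 2 ≠ 1 := hp1
    have hlt : p.1 ^ 2 < 1 := by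
      by_contra hcon
      push Not at hcon
      exact hpos p hp (measure_mono_null (ns_subset_Bd _ _)
        (vol_Bd_zero (lt_of_le_of_ne hcon (Ne.symm hp1')) p.2))
    refine ⟨⟨hlt, ?_, ?_⟩, (vol_NS ha hp1' p.2).resolve_left (hpos p hp)⟩
    · by_contra hcon
      push Not at hcon
      exact hpos p hp (measure_mono_null (ns_subset_Bd _ _) (vol_Bd_horse ha hcon))
    · by_contra hcon
      push Not at hcon
      refine hpos p hp ?_
      rw [ns_empty ha hlt hcon, measure_empty]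
  · rintro ⟨E, hE, h⟩
    refine ⟨1, one_pos, E, hE, fun p hp => ⟨NS p.1 p.2, meas_NS _ _, ?_, fun z hz => hz⟩⟩
    rw [(h p hp).2]
    exact le_top

end Pool.Agent.Lib.MP_4785e6_an.Main
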