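import Pool.Agent.Lib.MP_4785e6_an.Orbit
import Pool.Agent.Lib.MP_4785e6_an.Horse

/-!
# Measure
-/

set_option autoImplicit false

namespace Pool.Agent.Lib.MP_4785e6_an.Meas

open Filter Topology MeasureTheory Set Pool.Agent.Lib.MP_4785e6_an.Seq
  Pool.Agent.Lib.MP_4785e6_an.Orbit

/-- scaling of the second coordinate -/
theorem map_scale {a : ℝ} (ha : a ≠ 0) :
    Measure.map (fun z : ℝ × ℝ => (z.1, a * z.2)) volume
      = ENNReal.ofReal |a⁻¹| • (volume : Measure (ℝ × ℝ)) := by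
  have h := Measure.map_prod_map (volume : Measure ℝ) (volume : Measure ℝ)
    (f := id) (g := fun y : ℝ => a * y) measurable_id (measurable_const_mul a)
  rw [Measure.map_id, Real.map_volume_mul_left ha, Measure.prod_smul_right] at h
  rw [Measure.volume_eq_prod, h]
  rfl

theorem mp_shear (c : ℝ) :
    MeasurePreserving (fun z : ℝ × ℝ => (z.1, z.2 + (z.1 ^ 2 + c))) volume volume := by
  rw [Measure.volume_eq_prod]
  exact (MeasurePreserving.id (volume : Measure ℝ)).skew_product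
    (g := fun x y => y + (x ^ 2 + c)) (by fun_prop)
    (Eventually.of_forall fun x => map_add_right_eq_self volume (x ^ 2 + c))

theorem mp_swap : MeasurePreserving (Prod.swap : ℝ × ℝ → ℝ × ℝ) volume volume := by
  rw [Measure.volume_eq_prod]
  exact Measure.measurePreserving_swap

theorem map_henon {a : ℝ} (ha : a ≠ 0) (c : ℝ) :
    Measure.map (henon a c) volume
      = (ENNReal.ofReal |a⁻¹| * ENNReal.ofReal |a⁻¹|) • (volume : Measure (ℝ × ℝ)) := by
  have hV : Measurable (fun z : ℝ × ℝ => (z.1, a * z.2)) := by fun_prop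
  have e : henon a c = (fun z : ℝ × ℝ => (z.1, a * z.2)) ∘ Prod.swap ∘
      (fun z : ℝ × ℝ => (z.1, z.2 + (z.1 ^ 2 + c))) ∘ (fun z : ℝ × ℝ => (z.1, a * z.2)) := by
    funext z
    simp only [henon, Function.comp, Prod.swap]
    rw [add_assoc]
  rw [e, ← Measure.map_map hV (by fun_prop), ← Measure.map_map measurable_swap (by fun_prop),
    ← Measure.map_map (mp_shear c).measurable hV, map_scale ha, Measure.map_smul,
    (mp_shear c).map_eq, Measure.map_smul, mp_swap.map_eq, Measure.map_smul, map_scale ha,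
    smul_smul]

theorem preimage_vol {a : ℝ} (ha : a ≠ 0) (c : ℝ) {s : Set (ℝ × ℝ)} (hs : MeasurableSet s) :
    volume (henon a c ⁻¹' s) = (ENNReal.ofReal |a⁻¹| * ENNReal.ofReal |a⁻¹|) * volume s := by
  rw [← Measure.map_apply (continuous_henon a c).measurable hs, map_henon ha c,
    Measure.smul_apply, smul_eq_mul]

theorem coef_lt {a : ℝ} (ha1 : 1 < a ^ 2) :
    ENNReal.ofReal |a⁻¹| * ENNReal.ofReal |a⁻¹| < 1 := by
  rw [← ENNReal.ofReal_mul (abs_nonneg _), ← abs_mul, ← mul_inv, ← pow_two,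
    abs_of_pos (by positivity), ← ENNReal.ofReal_one, ENNReal.ofReal_lt_ofReal_iff one_pos]
  exact inv_lt_one_of_one_lt₀ ha1

theorem coef_ne {a : ℝ} (ha : a ≠ 0) (ha1 : a ^ 2 ≠ 1) :
    ENNReal.ofReal |a⁻¹| * ENNReal.ofReal |a⁻¹| ≠ 1 := by
  rw [← ENNReal.ofReal_mul (abs_nonneg _), ← abs_mul, ← mul_inv, ← pow_two,
    abs_of_pos (by positivity)]
  intro h
  exact ha1 (inv_eq_one.1 (ENNReal.ofReal_eq_one.1 h))

/-- the points whose orbit has first coordinates in `[-R, R]` -/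
def KK (a c R : ℝ) : Set (ℝ × ℝ) := {z | ∀ n, |xs a c z n| ≤ R}

theorem closed_KK (a c R : ℝ) : IsClosed (KK a c R) := by
  have e : KK a c R = ⋂ n, {z | |xs a c z n| ≤ R} := by
    ext z; simp only [KK, mem_iInter]; rfl
  rw [e]
  exact isClosed_iInter fun n => isClosed_le (continuous_xs a c n).abs continuous_const

/-- the bounded orbits -/
def Bd (a c : ℝ) : Set (ℝ × ℝ) := {z | ∃ M, ∀ n, |xs a c z n| ≤ M}

theorem Bd_eq (a c : ℝ) : Bd a c = ⋃ k : ℕ, KK a c k := by
  ext z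
  simp only [Bd, mem_iUnion]
  constructor
  · rintro ⟨M, hM⟩
    obtain ⟨k, hk⟩ := exists_nat_ge M
    exact ⟨k, fun n => (hM n).trans hk⟩
  · rintro ⟨k, hk⟩
    exact ⟨k, hk⟩

theorem meas_Bd (a c : ℝ) : MeasurableSet (Bd a c) := by
  rw [Bd_eq]
  exact MeasurableSet.iUnion fun k => (closed_KK a c k).measurableSet

theorem ns_subset_Bd (a c : ℝ) : NS a c ⊆ Bd a c := fun _ hz => by
  by_contra h
  exact not_ns_of_unbounded h hz

/-- volume expanding maps have a null set of bounded orbits -/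
theorem vol_KK_zero {a : ℝ} (ha1 : 1 < a ^ 2) (c R : ℝ) : volume (KK a c R) = 0 := by
  have ha : a ≠ 0 := by rintro rfl; norm_num at ha1
  have hsub : KK a c R ⊆ henon a c ⁻¹' KK a c R := by
    intro z hz n
    have := hz (n + 1)
    simp only [xs] at this ⊢
    rwa [Function.iterate_succ_apply] at this
  have hfin : volume (KK a c R) < ⊤ := by
    have hb : KK a c R ⊆ Icc (-R) R ×ˢ Icc (-((R + R ^ 2 + |c|) / |a|)) ((R + R ^ 2 + |c|) / |a|) := by
      intro z hz
      have h0 : |z.1| ≤ R := hz 0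
      have h1 : |a * z.2 + z.1 ^ 2 + c| ≤ R := hz 1
      refine ⟨abs_le.1 h0, abs_le.1 ?_⟩
      rw [le_div_iff₀ (abs_pos.2 ha), ← abs_mul, mul_comm]
      have h2 : |a * z.2| ≤ |a * z.2 + z.1 ^ 2 + c| + |z.1 ^ 2| + |c| := by
        have e : a * z.2 = (a * z.2 + z.1 ^ 2 + c) - z.1 ^ 2 - c := by ring
        calc |a * z.2| = |(a * z.2 + z.1 ^ 2 + c) - z.1 ^ 2 - c| := by rw [← e]
          _ ≤ |(a * z.2 + z.1 ^ 2 + c) - z.1 ^ 2| + |c| := abs_sub _ _
          _ ≤ _ := by
            have := abs_sub (a * z.2 + z.1 ^ 2 + c) (z.1 ^ 2)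
            linarith
      have h3 : |z.1 ^ 2| ≤ R ^ 2 := by
        rw [abs_pow]
        exact pow_le_pow_left₀ (abs_nonneg _) h0 2
      linarith
    refine (measure_mono hb).trans_lt ?_
    exact (isCompact_Icc.prod isCompact_Icc).measure_lt_top
  have h1 := (measure_mono hsub).trans (preimage_vol ha c (closed_KK a c R).measurableSet).le
  by_contra hne
  have h2 : (ENNReal.ofReal |a⁻¹| * ENNReal.ofReal |a⁻¹|) * volume (KK a c R)
      < 1 * volume (KK a c R) :=
    ENNReal.mul_lt_mul_left hne hfin.ne (coef_lt ha1)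
  rw [one_mul] at h2
  exact absurd h1 (not_le.2 h2)

theorem vol_Bd_zero {a : ℝ} (ha1 : 1 < a ^ 2) (c : ℝ) : volume (Bd a c) = 0 := by
  rw [Bd_eq, measure_iUnion_null_iff]
  exact fun k => vol_KK_zero ha1 c k

/-- `xs` in terms of `Horse.X` -/
theorem xs_eq (a c x y : ℝ) (n : ℕ) :
    xs a c (x, y) n = Horse.X (a ^ 2) c x n (a * y + x ^ 2 + c) := by
  have key : ∀ n, xs a c (x, y) n = Horse.X (a ^ 2) c x n (a * y + x ^ 2 + c) ∧
      xs a c (x, y) (n + 1) = Horse.X (a ^ 2) c x (n + 1) (a * y + x ^ 2 + c) := by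
    intro n
    induction n with
    | zero => exact ⟨rfl, rfl⟩
    | succ n ih =>
      refine ⟨ih.2, ?_⟩
      rw [isOrb a c (x, y) n, ih.1, ih.2]; rfl
  exact (key n).1

theorem vol_KK_horse {a c R : ℝ} (ha : a ≠ 0) (hR0 : 0 ≤ R)
    (hR : -c - (1 + a ^ 2) * R = (1 + a ^ 2) ^ 2) : volume (KK a c R) = 0 := by
  rw [Measure.volume_eq_prod, Measure.measure_prod_null (closed_KK a c R).measurableSet]
  refine Eventually.of_forall fun x => ?_
  have e : Prod.mk x ⁻¹' KK a c R = (fun y => a * y) ⁻¹'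
      ((fun y => y + (x ^ 2 + c)) ⁻¹' {τ | ∀ n, |Horse.X (a ^ 2) c x n τ| ≤ R}) := by
    ext y
    show (∀ n, |xs a c (x, y) n| ≤ R) ↔ ∀ n, |Horse.X (a ^ 2) c x n (a * y + (x ^ 2 + c))| ≤ R
    simp only [xs_eq, add_assoc]
  show volume (Prod.mk x ⁻¹' KK a c R) = 0
  rw [e, Real.volume_preimage_mul_left ha, measure_preimage_add_right,
    Horse.slice_null (by positivity) hR0 hR, mul_zero]

/-- **bounded orbits form a null set if `c < -(2+√2)(1+a^2)^2`** -/
theorem vol_Bd_horse {a c : ℝ} (ha : a ≠ 0) (hc : c < -(2 + √2) * (1 + a ^ 2) ^ 2) :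
    volume (Bd a c) = 0 := by
  set t := 1 + a ^ 2 with ht
  have ht0 : 0 < t := by positivity
  have h2 : √2 ^ 2 = 2 := Real.sq_sqrt (by norm_num)
  have h2' : 0 ≤ √2 := Real.sqrt_nonneg _
  set u := -c / t ^ 2 with hu
  have hc' : -c = u * t ^ 2 := (div_mul_cancel₀ _ (by positivity)).symm
  have hu1 : 2 + √2 < u := by
    rw [hu, lt_div_iff₀ (by positivity)]; linarith
  have hu2 : 0 < u ^ 2 - 4 * u + 2 := by nlinarith
  set R := (u - 1) * t with hRd
  have hR0 : 0 < R := mul_pos (by linarith) ht0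
  have hR1 : -c - (1 + a ^ 2) * R = (1 + a ^ 2) ^ 2 := by
    rw [← ht, hc', hRd]; ring
  have habs : |c| = u * t ^ 2 := by
    rw [← hc', abs_of_neg]
    have : 0 < u * t ^ 2 := mul_pos (by linarith) (by positivity)
    linarith
  have hR2 : (1 + a ^ 2) * R + |c| < R ^ 2 := by
    rw [← ht, habs, hRd]
    have : 0 < t ^ 2 * (u ^ 2 - 4 * u + 2) := by positivity
    nlinarith
  have hnull : ∀ N, volume ((henon a c)^[N] ⁻¹' KK a c R) = 0 := by
    intro N
    induction N with
    | zero => simpa using vol_KK_horse ha hR0.le hR1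
    | succ N ih =>
      have e : (henon a c)^[N + 1] ⁻¹' KK a c R = henon a c ⁻¹' ((henon a c)^[N] ⁻¹' KK a c R) := by
        rw [← preimage_comp, ← Function.iterate_succ]
      rw [e, preimage_vol ha c ((closed_KK a c R).measurableSet.preimage
        (continuous_iter a c N).measurable), ih, mul_zero]
  have hsub : Bd a c ⊆ ⋃ N, (henon a c)^[N] ⁻¹' KK a c R := by
    rintro z ⟨M, hM⟩
    obtain ⟨N, hN⟩ := Esc.eventually_le (isOrb a c z) (sq_nonneg a) hR0 hR2 hM
    refine mem_iUnion.2 ⟨N, fun n => ?_⟩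
    have := hN n
    simp only [xs] at this ⊢
    rwa [← Function.iterate_add_apply]
  exact measure_mono_null hsub (measure_iUnion_null hnull)

/-- averages along a bounded orbit -/
theorem tendsto_of_dense {a c : ℝ} {z : ℝ × ℝ} (hz : z ∈ Bd a c) {F : Set C(ℝ × ℝ, ℝ)}
    (hF : Dense F) (h : ∀ f ∈ F, ∃ l : ℝ, Tendsto
      (fun n : ℕ => (∑ k ∈ Finset.range n, f ((henon a c)^[k] z)) / n) atTop (𝓝 l))
    (φ : C(ℝ × ℝ, ℝ)) : ∃ l : ℝ, Tendsto
      (fun n : ℕ => (∑ k ∈ Finset.range n, φ ((henon a c)^[k] z)) / n) atTop (𝓝 l) := by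
  obtain ⟨M, hM⟩ := hz
  obtain ⟨T, hT, hT'⟩ := bdd_compact hM
  refine cauchySeq_tendsto_of_complete ?_
  rw [Metric.cauchySeq_iff']
  intro ε hε
  -- a good approximation on `T`
  obtain ⟨f, hfF, hf⟩ : ∃ f ∈ F, ∀ p ∈ T, dist (φ p) (f p) < ε / 4 := by
    have hopen : {f : C(ℝ × ℝ, ℝ) | ∀ p ∈ T, dist (φ p) (f p) < ε / 4} ∈ 𝓝 φ := by
      have := (ContinuousMap.tendsto_iff_forall_isCompact_tendstoUniformlyOn
        (F := fun f : C(ℝ × ℝ, ℝ) => f) (f := φ) (p := 𝓝 φ)).1 tendsto_id T hT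
      exact Metric.tendstoUniformlyOn_iff.1 this (ε / 4) (by positivity)
    obtain ⟨f, hf1, hf2⟩ := hF.inter_nhds_nonempty hopen
    exact ⟨f, hf1, hf2⟩
  obtain ⟨l, hl⟩ := h f hfF
  obtain ⟨N, hN⟩ := Metric.cauchySeq_iff'.1 hl.cauchySeq (ε / 4) (by positivity)
  have hdiff : ∀ n : ℕ, dist ((∑ k ∈ Finset.range n, φ ((henon a c)^[k] z)) / n)
      ((∑ k ∈ Finset.range n, f ((henon a c)^[k] z)) / n) ≤ ε / 4 := by
    intro n
    rcases Nat.eq_zero_or_pos n with rfl | hn
    · simp only [Finset.range_zero, Finset.sum_empty, dist_self]; positivity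
    rw [Real.dist_eq, ← sub_div, ← Finset.sum_sub_distrib, abs_div, Nat.abs_cast,
      div_le_iff₀ (by positivity)]
    refine (Finset.abs_sum_le_sum_abs _ _).trans ?_
    refine (Finset.sum_le_sum (g := fun _ => ε / 4) fun k _ => ?_).trans ?_
    · have := hf _ (hT' k)
      rw [Real.dist_eq] at this
      exact this.le
    · rw [Finset.sum_const, Finset.card_range, nsmul_eq_mul, mul_comm]
  refine ⟨N, fun n hn => ?_⟩
  calc dist _ _ ≤ _ := dist_triangle4 _ ((∑ k ∈ Finset.range n, f ((henon a c)^[k] z)) / n)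
        ((∑ k ∈ Finset.range N, f ((henon a c)^[k] z)) / N) _
    _ < ε := by
      have h1 := hdiff n
      have h2 := hN n hn
      have h3 := hdiff N
      rw [dist_comm] at h3
      linarith

/-- the set of non-statistical points is Borel -/
theorem meas_NS (a c : ℝ) : MeasurableSet (NS a c) := by
  obtain ⟨F, hFc, hFd⟩ := TopologicalSpace.exists_countable_dense C(ℝ × ℝ, ℝ)
  have e : NS a c = Bd a c ∩ ⋃ f ∈ F, {z | ∃ l : ℝ, Tendsto
      (fun n : ℕ => (∑ k ∈ Finset.range n, f ((henon a c)^[k] z)) / n) atTop (𝓝 l)}ᶜ := by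
    ext z
    constructor
    · intro hz
      refine ⟨ns_subset_Bd a c hz, ?_⟩
      by_contra hcon
      simp only [mem_iUnion, mem_compl_iff, not_exists, not_not] at hcon
      have hzB := ns_subset_Bd a c hz
      obtain ⟨φ, hφc, -, hφ⟩ := hz
      exact hφ (tendsto_of_dense hzB hFd (fun f hf => hcon f hf) ⟨φ, hφc⟩)
    · rintro ⟨hz, hz2⟩
      simp only [mem_iUnion, mem_compl_iff] at hz2
      obtain ⟨f, hfF, hf⟩ := hz2
      obtain ⟨M, hM⟩ := hz
      obtain ⟨T, hT, hT'⟩ := bdd_compact hM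
      -- cut off
      obtain ⟨χ, hχc, hχ1, -, -⟩ : ∃ χ : C(ℝ × ℝ, ℝ), HasCompactSupport χ ∧
          (∀ p ∈ T, χ p = 1) ∧ True ∧ True := by
        obtain ⟨χ, h1, -, h3, -⟩ := exists_continuous_one_zero_of_isCompact hT
          (isClosed_empty (X := ℝ × ℝ)) (disjoint_empty T)
        exact ⟨χ, h3, fun p hp => h1 hp, trivial, trivial⟩
      refine ⟨fun p => χ p * f p, by fun_prop, hχc.mul_right, ?_⟩
      rintro ⟨l, hl⟩
      refine hf ⟨l, hl.congr fun n => ?_⟩
      congr 1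
      refine Finset.sum_congr rfl fun k _ => ?_
      show χ ((henon a c)^[k] z) * f ((henon a c)^[k] z) = f ((henon a c)^[k] z)
      rw [hχ1 _ (hT' k), one_mul]
  rw [e]
  refine (meas_Bd a c).inter (MeasurableSet.biUnion hFc fun f _ => MeasurableSet.compl ?_)
  refine measurableSet_exists_tendsto fun n => ?_
  refine Measurable.div_const ?_ _
  exact Finset.measurable_sum _ fun k _ =>
    (f.continuous.comp (continuous_iter a c k)).measurable

/-- the set of non-statistical points is invariant -/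
theorem NS_preimage (a c : ℝ) : henon a c ⁻¹' NS a c = NS a c := by
  have key : ∀ (φ : ℝ × ℝ → ℝ) (z : ℝ × ℝ), HasCompactSupport φ → Continuous φ →
      ((∃ l : ℝ, Tendsto (fun n : ℕ => (∑ k ∈ Finset.range n, φ ((henon a c)^[k] (henon a c z))) / n)
        atTop (𝓝 l)) ↔ ∃ l : ℝ, Tendsto
          (fun n : ℕ => (∑ k ∈ Finset.range n, φ ((henon a c)^[k] z)) / n) atTop (𝓝 l)) := by
    intro φ z hs hφ
    obtain ⟨B, hB⟩ := hs.exists_bound_of_continuous hφ
    have hd : Tendsto (fun n : ℕ => (∑ k ∈ Finset.range n, φ ((henon a c)^[k] (henon a c z))) / n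
        - (∑ k ∈ Finset.range n, φ ((henon a c)^[k] z)) / n) atTop (𝓝 0) := by
      refine squeeze_zero_norm (a := fun n : ℕ => (2 * B) / (n : ℝ)) (fun n => ?_)
        (tendsto_const_div_atTop_nhds_zero_nat _)
      rw [← sub_div, norm_div, Real.norm_natCast]
      refine div_le_div_of_nonneg_right ?_ (Nat.cast_nonneg n)
      have e : ∑ k ∈ Finset.range n, φ ((henon a c)^[k] (henon a c z))
          - ∑ k ∈ Finset.range n, φ ((henon a c)^[k] z)
          = φ ((henon a c)^[n] z) - φ z := by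
        have h1 := Finset.sum_range_succ' (fun k => φ ((henon a c)^[k] z)) n
        rw [Finset.sum_range_succ] at h1
        simp only [Function.iterate_succ_apply, Function.iterate_zero, id] at h1
        linarith
      rw [e]
      refine (norm_sub_le _ _).trans ?_
      have := hB ((henon a c)^[n] z)
      have := hB z
      linarith
    constructor
    · rintro ⟨l, hl⟩
      refine ⟨l, ?_⟩
      have := hl.sub hd
      rw [sub_zero] at this
      exact this.congr fun n => by ring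
    · rintro ⟨l, hl⟩
      refine ⟨l, ?_⟩
      have := hl.add hd
      rw [add_zero] at this
      exact this.congr fun n => by ring
  ext z
  constructor
  · rintro ⟨φ, h1, h2, h3⟩
    exact ⟨φ, h1, h2, fun h => h3 ((key φ z h2 h1).2 h)⟩
  · rintro ⟨φ, h1, h2, h3⟩
    exact ⟨φ, h1, h2, fun h => h3 ((key φ z h2 h1).1 h)⟩

theorem vol_NS {a : ℝ} (ha : a ≠ 0) (ha1 : a ^ 2 ≠ 1) (c : ℝ) :
    volume (NS a c) = 0 ∨ volume (NS a c) = ⊤ := by
  have h := preimage_vol ha c (meas_NS a c)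
  rw [NS_preimage] at h
  by_cases h0 : volume (NS a c) = 0
  · exact Or.inl h0
  by_cases ht : volume (NS a c) = ⊤
  · exact Or.inr ht
  exfalso
  refine coef_ne ha ha1 ?_
  have h' : (ENNReal.ofReal |a⁻¹| * ENNReal.ofReal |a⁻¹|) * volume (NS a c)
      = 1 * volume (NS a c) := by rw [one_mul]; exact h.symm
  exact (ENNReal.mul_left_inj h0 ht).1 h'

end Pool.Agent.Lib.MP_4785e6_an.Meas
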