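import Pool.Agent.Lib.MP_4785e6_an.Defs
import Pool.Agent.Lib.MP_4785e6_an.Esc
import Pool.Agent.Lib.MP_4785e6_an.Conv

/-!
# Orbits of the Hénon maps
-/

set_option autoImplicit false

namespace Pool.Agent.Lib.MP_4785e6_an.Orbit

open Filter Topology MeasureTheory Pool.Agent.Lib.MP_4785e6_an.Seq

/-- the first coordinates of the orbit -/
def xs (a c : ℝ) (z : ℝ × ℝ) (n : ℕ) : ℝ := ((henon a c)^[n] z).1

theorem snd_succ (a c : ℝ) (z : ℝ × ℝ) (n : ℕ) :
    ((henon a c)^[n + 1] z).2 = a * xs a c z n := by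
  rw [Function.iterate_succ_apply']; rfl

theorem isOrb (a c : ℝ) (z : ℝ × ℝ) : IsOrb (a ^ 2) c (xs a c z) := by
  intro n
  show ((henon a c)^[n + 2] z).1 = _
  rw [Function.iterate_succ_apply']
  show a * ((henon a c)^[n + 1] z).2 + xs a c z (n + 1) ^ 2 + c = _
  rw [snd_succ]; ring

theorem continuous_henon (a c : ℝ) : Continuous (henon a c) := by
  unfold henon; fun_prop

theorem continuous_iter (a c : ℝ) (n : ℕ) : Continuous ((henon a c)^[n]) :=
  (continuous_henon a c).iterate n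

theorem continuous_xs (a c : ℝ) (n : ℕ) : Continuous fun z => xs a c z n :=
  (continuous_iter a c n).fst

/-- bounded orbits stay in a compact set -/
theorem bdd_compact {a c M : ℝ} {z : ℝ × ℝ} (hM : ∀ n, |xs a c z n| ≤ M) :
    ∃ T : Set (ℝ × ℝ), IsCompact T ∧ ∀ n, (henon a c)^[n] z ∈ T := by
  refine ⟨Metric.closedBall 0 (max M (max |z.2| (|a| * M))), isCompact_closedBall _ _, fun n => ?_⟩
  rw [mem_closedBall_zero_iff, Prod.norm_def, Real.norm_eq_abs, Real.norm_eq_abs]
  refine max_le ((hM n).trans (le_max_left _ _)) ?_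
  rcases n with _ | n
  · exact (le_max_left _ _).trans (le_max_right _ _)
  · rw [snd_succ, abs_mul]
    exact (mul_le_mul_of_nonneg_left (hM n) (abs_nonneg a)).trans
      ((le_max_right _ _).trans (le_max_right _ _))

/-- Cesàro means of a sequence whose parity classes converge -/
theorem cesaro_two {u : ℕ → ℝ} {p q : ℝ} (h0 : Tendsto (fun n => u (2 * n)) atTop (𝓝 p))
    (h1 : Tendsto (fun n => u (2 * n + 1)) atTop (𝓝 q)) :
    Tendsto (fun n : ℕ => (∑ k ∈ Finset.range n, u k) / n) atTop (𝓝 ((p + q) / 2)) := by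
  set w : ℕ → ℝ := fun k => u k - ((p + q) / 2 + (-1) ^ k * ((p - q) / 2)) with hw
  have e0 : ∀ n, (-1 : ℝ) ^ (2 * n) = 1 := fun n => by rw [pow_mul]; simp
  have e1 : ∀ n, (-1 : ℝ) ^ (2 * n + 1) = -1 := fun n => by rw [pow_succ, e0]; ring
  have hw0 : Tendsto (fun n => w (2 * n)) atTop (𝓝 0) := by
    have := h0.sub_const p
    rw [sub_self] at this
    refine this.congr fun n => ?_
    simp only [hw, e0]; ring
  have hw1 : Tendsto (fun n => w (2 * n + 1)) atTop (𝓝 0) := by
    have := h1.sub_const q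
    rw [sub_self] at this
    refine this.congr fun n => ?_
    simp only [hw, e1]; ring
  have hwt : Tendsto w atTop (𝓝 0) := by
    rw [Metric.tendsto_atTop]
    intro ε hε
    obtain ⟨N0, hN0⟩ := Metric.tendsto_atTop.1 hw0 ε hε
    obtain ⟨N1, hN1⟩ := Metric.tendsto_atTop.1 hw1 ε hε
    refine ⟨2 * N0 + 2 * N1 + 2, fun n hn => ?_⟩
    rcases Nat.even_or_odd' n with ⟨m, rfl | rfl⟩
    · exact hN0 m (by omega)
    · exact hN1 m (by omega)
  have hces := hwt.cesaro
  have halt : Tendsto (fun n : ℕ => (∑ k ∈ Finset.range n, (-1 : ℝ) ^ k) / n) atTop (𝓝 0) := by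
    have hb : ∀ n : ℕ, |∑ k ∈ Finset.range n, (-1 : ℝ) ^ k| ≤ 1 := by
      intro n
      have : ∑ k ∈ Finset.range n, (-1 : ℝ) ^ k = 0 ∨ ∑ k ∈ Finset.range n, (-1 : ℝ) ^ k = 1 := by
        rcases Nat.even_or_odd n with h | h
        · left
          obtain ⟨m, rfl⟩ := h
          induction m with
          | zero => simp
          | succ m ih =>
            rw [show m + 1 + (m + 1) = m + m + 1 + 1 by ring, Finset.sum_range_succ,
              Finset.sum_range_succ, ih, ← two_mul, e1, e0]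
            ring
        · right
          obtain ⟨m, rfl⟩ := h
          induction m with
          | zero => simp
          | succ m ih =>
            rw [show 2 * (m + 1) + 1 = 2 * m + 1 + 1 + 1 by ring, Finset.sum_range_succ,
              Finset.sum_range_succ, ih, e1, show 2 * m + 1 + 1 = 2 * (m + 1) by ring, e0]
            ring
      rcases this with h | h <;> rw [h] <;> simp
    refine squeeze_zero_norm (a := fun n : ℕ => 1 / (n : ℝ)) (fun n => ?_)
      tendsto_one_div_atTop_nhds_zero_nat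
    rw [Real.norm_eq_abs, abs_div, Nat.abs_cast]
    exact div_le_div_of_nonneg_right (hb n) (Nat.cast_nonneg n)
  have hsum := (hces.add (halt.mul_const ((p - q) / 2))).add_const ((p + q) / 2)
  simp only [zero_mul, zero_add] at hsum
  refine hsum.congr' ?_
  filter_upwards [eventually_gt_atTop 0] with n hn
  have hn' : (n : ℝ) ≠ 0 := by positivity
  simp only [hw, Finset.sum_sub_distrib, Finset.sum_add_distrib, Finset.sum_const,
    Finset.card_range, ← Finset.sum_mul, nsmul_eq_mul]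
  field_simp
  ring

/-- unbounded orbits are statistical -/
theorem not_ns_of_unbounded {a c : ℝ} {z : ℝ × ℝ} (h : ¬ ∃ M, ∀ n, |xs a c z n| ≤ M) :
    z ∉ NS a c := by
  rintro ⟨φ, hφc, hφs, hφ⟩
  apply hφ
  have hlim := (Esc.bdd_or_tendsto (isOrb a c z) (sq_nonneg a)).resolve_left h
  obtain ⟨B, hB⟩ := hφs.isCompact.isBounded.exists_norm_le
  have hev : ∀ᶠ k in atTop, φ ((henon a c)^[k] z) = 0 := by
    filter_upwards [hlim.eventually (eventually_gt_atTop B)] with k hk
    by_contra hne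
    have h1 := hB _ (subset_tsupport φ hne)
    rw [Prod.norm_def, Real.norm_eq_abs] at h1
    have h2 := (le_max_left _ _).trans h1
    exact absurd h2 (not_le.2 hk)
  have ht : Tendsto (fun k => φ ((henon a c)^[k] z)) atTop (𝓝 0) :=
    tendsto_const_nhds.congr' (hev.mono fun k hk => hk.symm)
  refine ⟨0, ?_⟩
  have := ht.cesaro
  refine this.congr fun n => ?_
  rw [div_eq_inv_mul]

/-- **every bounded orbit converges to a cycle of period at most two if `-(1-a^2)^2 ≤ c`** -/
theorem converge {a c : ℝ} (ha : a ≠ 0) (ha1 : a ^ 2 < 1) (hc : -(1 - a ^ 2) ^ 2 ≤ c)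
    {z : ℝ × ℝ} (hz : ∃ M, ∀ n, |xs a c z n| ≤ M) :
    ∃ w, henon a c (henon a c w) = w ∧
      Tendsto (fun n => (henon a c)^[2 * n] z) atTop (𝓝 w) ∧
      Tendsto (fun n => (henon a c)^[2 * n + 1] z) atTop (𝓝 (henon a c w)) := by
  obtain ⟨M, hM⟩ := hz
  have hb : 0 < a ^ 2 := by positivity
  obtain ⟨p, q, hp, hq⟩ := Conv.two_of_bounded (isOrb a c z) hb ha1 hc hM
  have h1 : Tendsto (fun n => (henon a c)^[2 * n] z) atTop (𝓝 (p, a * q)) := by
    rw [← tendsto_add_atTop_iff_nat 1]
    have hp' : Tendsto (fun n => xs a c z (2 * (n + 1))) atTop (𝓝 p) :=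
      hp.comp (tendsto_add_atTop_nat 1)
    refine (hp'.prodMk_nhds (hq.const_mul a)).congr fun n => ?_
    rw [show 2 * (n + 1) = 2 * n + 1 + 1 by ring]
    refine Prod.ext rfl ?_
    rw [snd_succ]
  have h2 : Tendsto (fun n => (henon a c)^[2 * n + 1] z) atTop (𝓝 (henon a c (p, a * q))) := by
    refine (((continuous_henon a c).tendsto _).comp h1).congr fun n => ?_
    rw [Function.iterate_succ_apply']; rfl
  refine ⟨(p, a * q), ?_, h1, h2⟩
  have h3 : Tendsto (fun n => (henon a c)^[2 * (n + 1)] z) atTop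
      (𝓝 (henon a c (henon a c (p, a * q)))) := by
    refine (((continuous_henon a c).tendsto _).comp h2).congr fun n => ?_
    rw [show 2 * (n + 1) = 2 * n + 1 + 1 by ring, Function.iterate_succ_apply' _ (2 * n + 1)]; rfl
  exact tendsto_nhds_unique h3 (h1.comp (tendsto_add_atTop_nat 1))

/-- no non-statistical points for `-(1-a^2)^2 ≤ c` -/
theorem ns_empty {a c : ℝ} (ha : a ≠ 0) (ha1 : a ^ 2 < 1) (hc : -(1 - a ^ 2) ^ 2 ≤ c) :
    NS a c = ∅ := by
  rw [Set.eq_empty_iff_forall_notMem]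
  intro z hz
  by_cases hb : ∃ M, ∀ n, |xs a c z n| ≤ M
  · obtain ⟨w, -, h1, h2⟩ := converge ha ha1 hc hb
    obtain ⟨φ, hφc, -, hφ⟩ := hz
    exact hφ ⟨_, cesaro_two (u := fun k => φ ((henon a c)^[k] z)) ((hφc.tendsto _).comp h1)
      ((hφc.tendsto _).comp h2)⟩
  · exact not_ns_of_unbounded hb hz

end Pool.Agent.Lib.MP_4785e6_an.Orbit
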