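import Mathlib

/-!
# The recursion `x (n+2) = x (n+1) ^ 2 + c + b x n`: parity classes become monotone
-/

set_option autoImplicit false

namespace Pool.Agent.Lib.MP_4785e6_an.Seq

open Filter Topology

/-- the recursion -/
def IsOrb (b c : ℝ) (x : ℕ → ℝ) : Prop := ∀ n, x (n + 2) = x (n + 1) ^ 2 + c + b * x n

/-- both parity classes converge -/
def Two (x : ℕ → ℝ) : Prop :=
  ∃ p q : ℝ, Tendsto (fun n => x (2 * n)) atTop (𝓝 p) ∧
    Tendsto (fun n => x (2 * n + 1)) atTop (𝓝 q)

theorem IsOrb.shift {b c : ℝ} {x : ℕ → ℝ} (h : IsOrb b c x) (k : ℕ) :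
    IsOrb b c (fun n => x (n + k)) := by
  intro n
  show x (n + 2 + k) = x (n + 1 + k) ^ 2 + c + b * x (n + k)
  rw [show n + 2 + k = n + k + 2 by ring, show n + 1 + k = n + k + 1 by ring]
  exact h (n + k)

/-- the class of `n` converges, from its tail -/
theorem two_of_tail {x : ℕ → ℝ} (n : ℕ) {p q : ℝ}
    (h1 : Tendsto (fun k => x (n + 2 * k)) atTop (𝓝 p))
    (h2 : Tendsto (fun k => x (n + 2 * k + 1)) atTop (𝓝 q)) : Two x := by
  rcases Nat.even_or_odd' n with ⟨m, rfl | rfl⟩
  · refine ⟨p, q, ?_, ?_⟩
    · rw [← tendsto_add_atTop_iff_nat m]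
      refine h1.congr fun k => ?_
      congr 1; ring
    · rw [← tendsto_add_atTop_iff_nat m]
      refine h2.congr fun k => ?_
      congr 1; ring
  · refine ⟨q, p, ?_, ?_⟩
    · rw [← tendsto_add_atTop_iff_nat (m + 1)]
      refine h2.congr fun k => ?_
      congr 1; ring
    · rw [← tendsto_add_atTop_iff_nat m]
      refine h1.congr fun k => ?_
      congr 1; ring

/-- a bounded class whose differences have constant sign converges -/
theorem conv_of_sign {y : ℕ → ℝ} {M : ℝ} (hM : ∀ k, |y k| ≤ M)
    (h : (∀ k, y k ≤ y (k + 1)) ∨ ∀ k, y (k + 1) ≤ y k) : ∃ p, Tendsto y atTop (𝓝 p) := by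
  rcases h with h | h
  · have hm : Monotone y := monotone_nat_of_le_succ h
    exact ⟨_, tendsto_atTop_ciSup hm ⟨M, by rintro _ ⟨k, rfl⟩; exact (abs_le.1 (hM k)).2⟩⟩
  · have hm : Antitone y := antitone_nat_of_succ_le h
    exact ⟨_, tendsto_atTop_ciInf hm ⟨-M, by rintro _ ⟨k, rfl⟩; exact (abs_le.1 (hM k)).1⟩⟩

/-- a bounded sequence with `y (k+2) - y (k+1) ≤ b (y (k+1) - y k)` converges -/
theorem conv_of_diff_le {y : ℕ → ℝ} {M b : ℝ} (hb : 0 ≤ b) (hM : ∀ k, |y k| ≤ M)
    (h : ∀ k, y (k + 2) - y (k + 1) ≤ b * (y (k + 1) - y k)) : ∃ p, Tendsto y atTop (𝓝 p) := by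
  by_cases hex : ∃ k, y (k + 1) ≤ y k
  · obtain ⟨k, hk⟩ := hex
    have hall : ∀ j, y (k + j + 1) ≤ y (k + j) := by
      intro j
      induction j with
      | zero => exact hk
      | succ j ih =>
        have h1 := h (k + j)
        have h2 : b * (y (k + j + 1) - y (k + j)) ≤ 0 :=
          mul_nonpos_of_nonneg_of_nonpos hb (by linarith)
        have h3 : y (k + (j + 1) + 1) = y (k + j + 2) := rfl
        have h4 : y (k + (j + 1)) = y (k + j + 1) := rfl
        rw [h3, h4]; linarith
    obtain ⟨p, hp⟩ := conv_of_sign (y := fun j => y (k + j)) (M := M) (fun j => hM _)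
      (Or.inr fun j => hall j)
    refine ⟨p, ?_⟩
    rw [← tendsto_add_atTop_iff_nat k]
    refine hp.congr fun j => ?_
    rw [add_comm]
  · push Not at hex
    exact conv_of_sign hM (Or.inl fun k => (hex k).le)

theorem two_of_signs {x : ℕ → ℝ} {M : ℝ} (hM : ∀ n, |x n| ≤ M) (n : ℕ)
    (h1 : (∀ k, x (n + 2 * k) ≤ x (n + 2 * k + 2)) ∨ ∀ k, x (n + 2 * k + 2) ≤ x (n + 2 * k))
    (h2 : (∀ k, x (n + 2 * k + 1) ≤ x (n + 2 * k + 3)) ∨
      ∀ k, x (n + 2 * k + 3) ≤ x (n + 2 * k + 1)) : Two x := by
  obtain ⟨p, hp⟩ := conv_of_sign (y := fun k => x (n + 2 * k)) (M := M) (fun k => hM _)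
    (by
      rcases h1 with h | h
      · exact Or.inl fun k => by
          have := h k
          rwa [show n + 2 * k + 2 = n + 2 * (k + 1) by ring] at this
      · exact Or.inr fun k => by
          have := h k
          rwa [show n + 2 * k + 2 = n + 2 * (k + 1) by ring] at this)
  obtain ⟨q, hq⟩ := conv_of_sign (y := fun k => x (n + 2 * k + 1)) (M := M) (fun k => hM _)
    (by
      rcases h2 with h | h
      · exact Or.inl fun k => by
          have := h k
          rwa [show n + 2 * k + 3 = n + 2 * (k + 1) + 1 by ring] at this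
      · exact Or.inr fun k => by
          have := h k
          rwa [show n + 2 * k + 3 = n + 2 * (k + 1) + 1 by ring] at this)
  exact two_of_tail n hp hq

/-- second differences -/
theorem IsOrb.diff {b c : ℝ} {x : ℕ → ℝ} (h : IsOrb b c x) (n : ℕ) :
    x (n + 4) - x (n + 2) = (x (n + 3) - x (n + 1)) * (x (n + 3) + x (n + 1))
      + b * (x (n + 2) - x n) := by
  have h1 := h (n + 2)
  have h2 := h n
  rw [show n + 2 + 2 = n + 4 by ring, show n + 2 + 1 = n + 3 by ring] at h1
  linear_combination h1 - h2

/-- orbits that are eventually nonnegative -/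
theorem two_of_nonneg {b c M : ℝ} {x : ℕ → ℝ} (h : IsOrb b c x) (hb : 0 ≤ b)
    (hM : ∀ n, |x n| ≤ M) (N : ℕ) (hN : ∀ n, N ≤ n → 0 ≤ x n) : Two x := by
  set d : ℕ → ℝ := fun n => x (n + 2) - x n with hd
  have hr : ∀ n, d (n + 2) = d (n + 1) * (x (n + 3) + x (n + 1)) + b * d n := fun n => h.diff n
  by_cases hA : ∃ n, N ≤ n ∧ 0 ≤ d n ∧ 0 ≤ d (n + 1)
  · obtain ⟨n, hn, h0, h1⟩ := hA
    have hall : ∀ k, 0 ≤ d (n + k) ∧ 0 ≤ d (n + k + 1) := by
      intro k
      induction k with
      | zero => exact ⟨h0, h1⟩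
      | succ k ih =>
        refine ⟨ih.2, ?_⟩
        rw [show n + (k + 1) + 1 = n + k + 2 by ring, hr]
        have := hN (n + k + 3) (by omega)
        have := hN (n + k + 1) (by omega)
        have := mul_nonneg ih.2 (by linarith : 0 ≤ x (n + k + 3) + x (n + k + 1))
        have := mul_nonneg hb ih.1
        linarith
    refine two_of_signs hM n (Or.inl fun k => ?_) (Or.inl fun k => ?_)
    · have := (hall (2 * k)).1
      simp only [hd] at this; linarith
    · have := (hall (2 * k)).2
      simp only [hd] at this; linarith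
  by_cases hB : ∃ n, N ≤ n ∧ d n ≤ 0 ∧ d (n + 1) ≤ 0
  · obtain ⟨n, hn, h0, h1⟩ := hB
    have hall : ∀ k, d (n + k) ≤ 0 ∧ d (n + k + 1) ≤ 0 := by
      intro k
      induction k with
      | zero => exact ⟨h0, h1⟩
      | succ k ih =>
        refine ⟨ih.2, ?_⟩
        rw [show n + (k + 1) + 1 = n + k + 2 by ring, hr]
        have := hN (n + k + 3) (by omega)
        have := hN (n + k + 1) (by omega)
        have := mul_nonneg_of_nonpos_of_nonpos ih.2
          (by linarith : -(x (n + k + 3) + x (n + k + 1)) ≤ 0)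
        have := mul_nonpos_of_nonneg_of_nonpos hb ih.1
        linarith
    refine two_of_signs hM n (Or.inr fun k => ?_) (Or.inr fun k => ?_)
    · have := (hall (2 * k)).1
      simp only [hd] at this; linarith
    · have := (hall (2 * k)).2
      simp only [hd] at this; linarith
  push Not at hA hB
  have hpos : ∀ n, N ≤ n → 0 < d n → d (n + 1) < 0 := fun n hn h0 => hA n hn h0.le
  have hneg : ∀ n, N ≤ n → d n < 0 → 0 < d (n + 1) := fun n hn h0 => hB n hn h0.le
  rcases lt_or_ge 0 (d N) with h0 | h0
  · have hall : ∀ k, 0 < d (N + 2 * k) := by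
      intro k
      induction k with
      | zero => exact h0
      | succ k ih =>
        have := hneg _ (by omega) (hpos _ (by omega) ih)
        rwa [show N + 2 * (k + 1) = N + 2 * k + 1 + 1 by ring]
    refine two_of_signs hM N (Or.inl fun k => ?_) (Or.inr fun k => ?_)
    · have := hall k
      simp only [hd] at this; linarith
    · have := hpos _ (by omega) (hall k)
      simp only [hd] at this; linarith
  · have h0' : d N < 0 ∨ d N = 0 := lt_or_eq_of_le h0
    have h0'' : d N < 0 := by
      rcases h0' with h | h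
      · exact h
      · exfalso
        have h2 := hA N le_rfl h.ge
        have h3 := hB N le_rfl h.le
        linarith
    have hall : ∀ k, d (N + 2 * k) < 0 := by
      intro k
      induction k with
      | zero => exact h0''
      | succ k ih =>
        have := hpos _ (by omega) (hneg _ (by omega) ih)
        rwa [show N + 2 * (k + 1) = N + 2 * k + 1 + 1 by ring]
    refine two_of_signs hM N (Or.inr fun k => ?_) (Or.inl fun k => ?_)
    · have := hall k
      simp only [hd] at this; linarith
    · have := hneg _ (by omega) (hall k)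
      simp only [hd] at this; linarith

/-- orbits that are eventually nonpositive -/
theorem two_of_nonpos {b c M : ℝ} {x : ℕ → ℝ} (h : IsOrb b c x) (hb : 0 ≤ b)
    (hM : ∀ n, |x n| ≤ M) (N : ℕ) (hN : ∀ n, N ≤ n → x n ≤ 0) : Two x := by
  set d : ℕ → ℝ := fun n => x (n + 2) - x n with hd
  have hr : ∀ n, d (n + 2) = d (n + 1) * (x (n + 3) + x (n + 1)) + b * d n := fun n => h.diff n
  by_cases hA : ∃ n, N ≤ n ∧ 0 ≤ d n ∧ d (n + 1) ≤ 0
  · obtain ⟨n, hn, h0, h1⟩ := hA
    have hall : ∀ k, 0 ≤ d (n + 2 * k) ∧ d (n + 2 * k + 1) ≤ 0 := by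
      intro k
      induction k with
      | zero => exact ⟨h0, h1⟩
      | succ k ih =>
        have e1 : 0 ≤ d (n + 2 * k + 2) := by
          rw [hr]
          have := hN (n + 2 * k + 3) (by omega)
          have := hN (n + 2 * k + 1) (by omega)
          have := mul_nonneg_of_nonpos_of_nonpos ih.2
            (by linarith : x (n + 2 * k + 3) + x (n + 2 * k + 1) ≤ 0)
          have := mul_nonneg hb ih.1
          linarith
        have e2 : d (n + 2 * k + 3) ≤ 0 := by
          have r := hr (n + 2 * k + 1)
          rw [show n + 2 * k + 1 + 2 = n + 2 * k + 3 by ring,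
            show n + 2 * k + 1 + 1 = n + 2 * k + 2 by ring] at r
          rw [r]
          have := hN (n + 2 * k + 1 + 3) (by omega)
          have := hN (n + 2 * k + 2) (by omega)
          have := mul_nonpos_of_nonneg_of_nonpos e1
            (by linarith : x (n + 2 * k + 1 + 3) + x (n + 2 * k + 2) ≤ 0)
          have := mul_nonpos_of_nonneg_of_nonpos hb ih.2
          linarith
        exact ⟨by rwa [show n + 2 * (k + 1) = n + 2 * k + 2 by ring],
          by rwa [show n + 2 * (k + 1) + 1 = n + 2 * k + 3 by ring]⟩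
    refine two_of_signs hM n (Or.inl fun k => ?_) (Or.inr fun k => ?_)
    · have := (hall k).1
      simp only [hd] at this; linarith
    · have := (hall k).2
      simp only [hd] at this; linarith
  by_cases hB : ∃ n, N ≤ n ∧ d n ≤ 0 ∧ 0 ≤ d (n + 1)
  · obtain ⟨n, hn, h0, h1⟩ := hB
    have hall : ∀ k, d (n + 2 * k) ≤ 0 ∧ 0 ≤ d (n + 2 * k + 1) := by
      intro k
      induction k with
      | zero => exact ⟨h0, h1⟩
      | succ k ih =>
        have e1 : d (n + 2 * k + 2) ≤ 0 := by
          rw [hr]
          have := hN (n + 2 * k + 3) (by omega)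
          have := hN (n + 2 * k + 1) (by omega)
          have := mul_nonpos_of_nonneg_of_nonpos ih.2
            (by linarith : x (n + 2 * k + 3) + x (n + 2 * k + 1) ≤ 0)
          have := mul_nonpos_of_nonneg_of_nonpos hb ih.1
          linarith
        have e2 : 0 ≤ d (n + 2 * k + 3) := by
          have r := hr (n + 2 * k + 1)
          rw [show n + 2 * k + 1 + 2 = n + 2 * k + 3 by ring,
            show n + 2 * k + 1 + 1 = n + 2 * k + 2 by ring] at r
          rw [r]
          have := hN (n + 2 * k + 1 + 3) (by omega)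
          have := hN (n + 2 * k + 2) (by omega)
          have := mul_nonneg_of_nonpos_of_nonpos e1
            (by linarith : x (n + 2 * k + 1 + 3) + x (n + 2 * k + 2) ≤ 0)
          have := mul_nonneg hb ih.2
          linarith
        exact ⟨by rwa [show n + 2 * (k + 1) = n + 2 * k + 2 by ring],
          by rwa [show n + 2 * (k + 1) + 1 = n + 2 * k + 3 by ring]⟩
    refine two_of_signs hM n (Or.inr fun k => ?_) (Or.inl fun k => ?_)
    · have := (hall k).1
      simp only [hd] at this; linarith
    · have := (hall k).2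
      simp only [hd] at this; linarith
  push Not at hA hB
  have hpos : ∀ n, N ≤ n → 0 ≤ d n → 0 < d (n + 1) := fun n hn h0 => hA n hn h0
  have hneg : ∀ n, N ≤ n → d n ≤ 0 → d (n + 1) < 0 := fun n hn h0 => hB n hn h0
  rcases le_or_gt 0 (d N) with h0 | h0
  · have hall : ∀ k, 0 ≤ d (N + k) := by
      intro k
      induction k with
      | zero => exact h0
      | succ k ih => exact (hpos _ (by omega) ih).le
    refine two_of_signs hM N (Or.inl fun k => ?_) (Or.inl fun k => ?_)
    · have := hall (2 * k)
      simp only [hd] at this; linarith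
    · have := hall (2 * k + 1)
      simp only [hd] at this
      rw [show N + (2 * k + 1) = N + 2 * k + 1 by ring] at this
      linarith
  · have hall : ∀ k, d (N + k) ≤ 0 := by
      intro k
      induction k with
      | zero => exact h0.le
      | succ k ih => exact (hneg _ (by omega) ih).le
    refine two_of_signs hM N (Or.inr fun k => ?_) (Or.inr fun k => ?_)
    · have := hall (2 * k)
      simp only [hd] at this; linarith
    · have := hall (2 * k + 1)
      simp only [hd] at this
      rw [show N + (2 * k + 1) = N + 2 * k + 1 by ring] at this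
      linarith

end Pool.Agent.Lib.MP_4785e6_an.Seq
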